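import Mathlib
import Pool.Agent.MadBlock.Block

/-!
# Positivity of block subspaces with respect to a family

`CoInf W V`: the subspace `V ∩ W` has infinite codimension in `V`.
-/

namespace Pool.Agent.MadTwo

open Submodule Pool.Agent.MadBlock

/-- `V` is not contained in `W + G` for any finite-dimensional `G`. -/
def CoInf {F : Type*} [Field F] (W V : Submodule F (ℕ →₀ F)) : Prop :=
  ∀ G : Submodule F (ℕ →₀ F), FiniteDimensional F G → ¬ V ≤ W ⊔ G

section gen

variable {F : Type*} [Field F]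

theorem CoInf.sup {W V G : Submodule F (ℕ →₀ F)} (h : CoInf W V) (hG : FiniteDimensional F G) :
    CoInf (W ⊔ G) V := by
  intro G' hG' hle
  refine h (G ⊔ G') (Submodule.finiteDimensional_sup G G') ?_
  rwa [sup_assoc] at hle

theorem CoInf.mono {W V U : Submodule F (ℕ →₀ F)} (h : CoInf W V) (hVU : V ≤ U) :
    CoInf W U := fun G hG hle => h G hG (hVU.trans hle)

/-- if `V ≤ W + G` with `G` finite-dimensional, `U ≤ V` and `U ∩ W` is finite-dimensional, then
`U` is finite-dimensional -/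
theorem finiteDimensional_of_le_sup {W V G U : Submodule F (ℕ →₀ F)}
    (hV : V ≤ W ⊔ G) (hG : FiniteDimensional F G) (hU : U ≤ V)
    (h : FiniteDimensional F (U ⊓ W : Submodule F (ℕ →₀ F))) : FiniteDimensional F U := by
  rw [← Submodule.fg_iff_finiteDimensional] at *
  refine Submodule.fg_of_fg_map_of_fg_inf_ker W.mkQ ?_ ?_
  · have h1 : U.map W.mkQ ≤ G.map W.mkQ := by
      calc U.map W.mkQ ≤ (W ⊔ G).map W.mkQ := Submodule.map_mono (hU.trans hV)
        _ = G.map W.mkQ := by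
          rw [Submodule.map_sup]
          rw [Submodule.mkQ_map_self, bot_sup_eq]
    have h2 : (G.map W.mkQ).FG := hG.map _
    rw [Submodule.fg_iff_finiteDimensional] at h2 ⊢
    exact Submodule.finiteDimensional_of_le h1
  · rw [Submodule.ker_mkQ]
    exact h

/-- infinite-dimensionality of the span of vectors that run off to infinity -/
theorem not_finiteDimensional_of {U : Submodule F (ℕ →₀ F)} {y : ℕ → (ℕ →₀ F)}
    (hy : IsBlockSeq y) {g : ℕ → ℕ} (hg : ∀ n, n ≤ g n) (h : ∀ n, y (g n) ∈ U) :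
    ¬ FiniteDimensional F U := by
  intro hfd
  obtain ⟨N, hN⟩ := (finiteDimensional_iff_bounded U).mp hfd
  obtain ⟨k, hk⟩ := Finsupp.support_nonempty_iff.mpr (hy (g N)).1
  have h1 := hy.ge (g N) k hk
  have h2 := hg N
  exact (Finsupp.mem_support_iff.mp hk) (hN _ (h N) k (by omega))

theorem block_not_fd {y : ℕ → (ℕ →₀ F)} (hy : IsBlockSeq y) :
    ¬ FiniteDimensional F (span F (Set.range y)) :=
  not_finiteDimensional_of hy (g := fun n => n) (fun n => le_refl n)
    (fun n => subset_span ⟨n, rfl⟩)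

theorem coInf_bot {y : ℕ → (ℕ →₀ F)} (hy : IsBlockSeq y) :
    CoInf ⊥ (span F (Set.range y)) := by
  intro G hG hle
  rw [bot_sup_eq] at hle
  exact block_not_fd hy (Submodule.finiteDimensional_of_le hle)

/-- vectors of `V` with support in `[n, ∞)` -/
def tail (V : Submodule F (ℕ →₀ F)) (n : ℕ) : Submodule F (ℕ →₀ F) where
  carrier := {v | v ∈ V ∧ ∀ i, i < n → v i = 0}
  add_mem' := by
    rintro a b ⟨ha, ha'⟩ ⟨hb, hb'⟩
    exact ⟨V.add_mem ha hb, fun i hi => by simp [ha' i hi, hb' i hi]⟩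
  zero_mem' := ⟨V.zero_mem, fun i _ => rfl⟩
  smul_mem' := by
    rintro c a ⟨ha, ha'⟩
    exact ⟨V.smul_mem c ha, fun i hi => by simp [ha' i hi]⟩

theorem mem_tail {V : Submodule F (ℕ →₀ F)} {n : ℕ} {v : ℕ →₀ F} :
    v ∈ tail V n ↔ v ∈ V ∧ ∀ i, i < n → v i = 0 := Iff.rfl

theorem tail_le {V : Submodule F (ℕ →₀ F)} {n : ℕ} : tail V n ≤ V := fun _ h => h.1

theorem tail_anti {V : Submodule F (ℕ →₀ F)} {n m : ℕ} (h : n ≤ m) : tail V m ≤ tail V n :=
  fun _ hv => ⟨hv.1, fun i hi => hv.2 i (by omega)⟩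

theorem le_tail_sup {x : ℕ → (ℕ →₀ F)} (hx : IsBlockSeq x) (n : ℕ) :
    ∃ G : Submodule F (ℕ →₀ F), FiniteDimensional F G ∧
      span F (Set.range x) ≤ tail (span F (Set.range x)) n ⊔ G := by
  classical
  refine ⟨span F (((Finset.range n).image x : Finset (ℕ →₀ F)) : Set (ℕ →₀ F)),
    FiniteDimensional.span_finset F _, ?_⟩
  rw [span_le]
  rintro _ ⟨j, rfl⟩
  rw [SetLike.mem_coe]
  by_cases hj : j < n
  · exact mem_sup_right (subset_span (by
      simp only [Finset.coe_image, Finset.coe_range, Set.mem_image, Set.mem_Iio]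
      exact ⟨j, hj, rfl⟩))
  · refine mem_sup_left ⟨subset_span ⟨j, rfl⟩, fun i hi => ?_⟩
    by_contra h
    have := hx.ge j i (Finsupp.mem_support_iff.mpr h)
    omega

end gen

end Pool.Agent.MadTwo
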