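import Mathlib
import Pool.Agent.MadTwo.Basic

/-!
# An idempotent ultrafilter avoiding all subspaces of infinite codimension
-/

namespace Pool.Agent.MadTwo

open Submodule Pool.Agent.MadBlock Filter
open scoped Pointwise

attribute [local instance] Ultrafilter.add Ultrafilter.addSemigroup

abbrev E2 := ℕ →₀ ZMod 2

/-- finitely many cosets of subspaces of infinite codimension do not cover a tail of `V` -/
theorem exists_avoid {x : ℕ → E2} (hx : IsBlockSeq x) (n : ℕ)
    (s : Finset (E2 × Submodule (ZMod 2) E2))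
    (hs : ∀ q ∈ s, CoInf q.2 (span (ZMod 2) (Set.range x))) :
    ∃ v ∈ tail (span (ZMod 2) (Set.range x)) n, ∀ q ∈ s, v - q.1 ∉ q.2 := by
  classical
  by_contra hcon
  push Not at hcon
  set V := span (ZMod 2) (Set.range x) with hV
  set T := tail V n with hT
  -- representatives inside `T`
  let s' := s.filter (fun q => ∃ v ∈ T, v - q.1 ∈ q.2)
  have hrep : ∀ q : E2 × Submodule (ZMod 2) E2, ∃ g : T, q ∈ s' → (g : E2) - q.1 ∈ q.2 := by
    intro q
    by_cases hq : q ∈ s'
    · obtain ⟨_, v, hv, hv'⟩ := Finset.mem_filter.mp hq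
      exact ⟨⟨v, hv⟩, fun _ => hv'⟩
    · exact ⟨0, fun h => absurd h hq⟩
  choose g hg using hrep
  have hcov : ⋃ q ∈ s', (g q) +ᵥ (((q.2.comap T.subtype).toAddSubgroup : AddSubgroup T) : Set T)
      = Set.univ := by
    rw [Set.eq_univ_iff_forall]
    rintro ⟨v, hv⟩
    obtain ⟨q, hq, hq'⟩ := hcon v hv
    have hq2 : q ∈ s' := Finset.mem_filter.mpr ⟨hq, v, hv, hq'⟩
    simp only [Set.mem_iUnion]
    refine ⟨q, hq2, ?_⟩
    rw [Set.mem_vadd_set]
    refine ⟨⟨v, hv⟩ - g q, ?_, ?_⟩
    · simp only [Submodule.coe_toAddSubgroup, SetLike.mem_coe, Submodule.mem_comap,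
        Submodule.subtype_apply, Submodule.coe_sub]
      have := q.2.sub_mem hq' (hg q hq2)
      simpa using this
    · change g q + (⟨v, hv⟩ - g q) = ⟨v, hv⟩
      abel
  obtain ⟨q, hq, hfin⟩ := AddSubgroup.exists_finiteIndex_of_leftCoset_cover hcov
  have hqs : q ∈ s := (Finset.mem_filter.mp hq).1
  -- finite index gives finite codimension
  set H : AddSubgroup T := (q.2.comap T.subtype).toAddSubgroup with hH
  have hf : Finite (T ⧸ H) := AddSubgroup.finite_quotient_of_finiteIndex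
  let r : T ⧸ H → T := Quotient.out
  have hr : ∀ v : T, ((v : E2) - (r (QuotientAddGroup.mk v) : T)) ∈ q.2 := by
    intro v
    have h1 : (QuotientAddGroup.mk (r (QuotientAddGroup.mk v)) : T ⧸ H) = QuotientAddGroup.mk v :=
      Quotient.out_eq _
    rw [QuotientAddGroup.eq] at h1
    have h2 : ((-(r (QuotientAddGroup.mk v)) + v : T) : E2) ∈ q.2 := h1
    have h3 : ((-(r (QuotientAddGroup.mk v)) + v : T) : E2) =
      (v : E2) - (r (QuotientAddGroup.mk v) : T) := by
      simp only [Submodule.coe_add, Submodule.coe_neg]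
      abel
    rwa [h3] at h2
  have hfr : (Set.range (fun z => ((r z : T) : E2))).Finite := Set.finite_range _
  obtain ⟨G, hG, hGle⟩ := le_tail_sup hx n
  have hfd : FiniteDimensional (ZMod 2) (span (ZMod 2) (Set.range (fun z => ((r z : T) : E2)))) :=
    FiniteDimensional.span_of_finite _ hfr
  refine hs q hqs (span (ZMod 2) (Set.range (fun z => ((r z : T) : E2))) ⊔ G)
    (Submodule.finiteDimensional_sup _ _) ?_
  refine hGle.trans ?_
  rw [← sup_assoc]
  refine sup_le_sup_right ?_ G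
  intro v hv
  have h1 := hr ⟨v, hv⟩
  have h2 : v = (v - (r (QuotientAddGroup.mk ⟨v, hv⟩) : T)) + (r (QuotientAddGroup.mk ⟨v, hv⟩) : T) := by
    abel
  rw [h2]
  exact add_mem (mem_sup_left h1) (mem_sup_right (subset_span ⟨_, rfl⟩))

/-- The set of admissible ultrafilters. -/
def Adm (x : ℕ → E2) : Set (Ultrafilter E2) :=
  {p | (∀ n, (tail (span (ZMod 2) (Set.range x)) n : Set E2) ∈ p) ∧
    ∀ W : Submodule (ZMod 2) E2, CoInf W (span (ZMod 2) (Set.range x)) →
      ∀ a : E2, {v : E2 | v - a ∈ W} ∉ p}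

theorem adm_nonempty {x : ℕ → E2} (hx : IsBlockSeq x) : (Adm x).Nonempty := by
  classical
  set V := span (ZMod 2) (Set.range x) with hV
  let S : Set (Set E2) := {Q | (∃ n, Q = tail V n) ∨
    ∃ (W : Submodule (ZMod 2) E2) (a : E2), CoInf W V ∧ Q = {v : E2 | v - a ∉ W}}
  have hne : (Filter.generate S).NeBot := by
    rw [Filter.generate_neBot_iff]
    intro t htS htfin
    -- collect the data
    have h1 : ∃ n : ℕ, ∀ Q ∈ t, (∃ n, Q = (tail V n : Set E2)) → (tail V n : Set E2) ⊆ Q := by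
      have h2 : ∀ Q : Set E2, ∃ n, (∃ n, Q = (tail V n : Set E2)) → Q = (tail V n : Set E2) := by
        intro Q
        by_cases h : ∃ n, Q = (tail V n : Set E2)
        · obtain ⟨n, hn⟩ := h
          exact ⟨n, fun _ => hn⟩
        · exact ⟨0, fun h' => absurd h' h⟩
      choose f hf using h2
      refine ⟨htfin.toFinset.sup f, fun Q hQ hQ' => ?_⟩
      have h3 : f Q ≤ htfin.toFinset.sup f :=
        Finset.le_sup (f := f) (htfin.mem_toFinset.mpr hQ)
      conv_rhs => rw [hf Q hQ']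
      exact tail_anti h3
    obtain ⟨n, hn⟩ := h1
    have h4 : ∀ Q : Set E2, ∃ q : E2 × Submodule (ZMod 2) E2,
        (∃ (W : Submodule (ZMod 2) E2) (a : E2), CoInf W V ∧ Q = {v : E2 | v - a ∉ W}) →
          CoInf q.2 V ∧ Q = {v : E2 | v - q.1 ∉ q.2} := by
      intro Q
      by_cases h : ∃ (W : Submodule (ZMod 2) E2) (a : E2), CoInf W V ∧ Q = {v : E2 | v - a ∉ W}
      · obtain ⟨W, a, h1, h2⟩ := h
        exact ⟨(a, W), fun _ => ⟨h1, h2⟩⟩
      · exact ⟨(0, ⊥), fun h' => absurd h' h⟩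
    choose f hf using h4
    let s : Finset (E2 × Submodule (ZMod 2) E2) :=
      (htfin.toFinset.image f).filter (fun q => CoInf q.2 V)
    obtain ⟨v, hv, hv'⟩ := exists_avoid hx n s (fun q hq => (Finset.mem_filter.mp hq).2)
    refine ⟨v, ?_⟩
    rw [Set.mem_sInter]
    intro Q hQ
    rcases htS hQ with h | h
    · exact hn Q hQ h hv
    · obtain ⟨h5, h6⟩ := hf Q h
      rw [h6]
      exact hv' _ (Finset.mem_filter.mpr
        ⟨Finset.mem_image_of_mem f (htfin.mem_toFinset.mpr hQ), h5⟩)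
  refine ⟨Ultrafilter.of (Filter.generate S), ?_, ?_⟩
  · intro n
    exact Ultrafilter.of_le _ (Filter.mem_generate_of_mem (Or.inl ⟨n, rfl⟩))
  · intro W hW a
    have : {v : E2 | v - a ∉ W} ∈ (Ultrafilter.of (Filter.generate S)) :=
      Ultrafilter.of_le _ (Filter.mem_generate_of_mem (Or.inr ⟨W, a, hW, rfl⟩))
    have h2 : {v : E2 | v - a ∉ W} = {v : E2 | v - a ∈ W}ᶜ := rfl
    rw [h2, Ultrafilter.compl_mem_iff_notMem] at this
    exact this

theorem adm_closed (x : ℕ → E2) : IsClosed (Adm x) := by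
  have : Adm x = (⋂ n, {p : Ultrafilter E2 | (tail (span (ZMod 2) (Set.range x)) n : Set E2) ∈ p}) ∩
      ⋂ (W : Submodule (ZMod 2) E2) (_ : CoInf W (span (ZMod 2) (Set.range x))) (a : E2),
        {p : Ultrafilter E2 | {v : E2 | v - a ∈ W} ∈ p}ᶜ := by
    ext p
    constructor
    · rintro ⟨h1, h2⟩
      refine ⟨Set.mem_iInter.mpr h1, ?_⟩
      refine Set.mem_iInter.mpr fun W => Set.mem_iInter.mpr fun hW => Set.mem_iInter.mpr fun a => ?_
      exact h2 W hW a
    · rintro ⟨h1, h2⟩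
      refine ⟨Set.mem_iInter.mp h1, fun W hW a => ?_⟩
      exact Set.mem_iInter.mp (Set.mem_iInter.mp (Set.mem_iInter.mp h2 W) hW) a
  rw [this]
  refine IsClosed.inter (isClosed_iInter fun n => ultrafilter_isClosed_basic _) ?_
  exact isClosed_iInter fun W => isClosed_iInter fun _ => isClosed_iInter fun a =>
    (ultrafilter_isOpen_basic _).isClosed_compl

theorem adm_add {x : ℕ → E2} {p q : Ultrafilter E2} (hp : p ∈ Adm x) (hq : q ∈ Adm x) :
    p + q ∈ Adm x := by
  refine ⟨?_, ?_⟩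
  · intro n
    have h1 := hp.1 n
    have h2 := hq.1 n
    change ∀ᶠ m in (↑(p + q) : Filter E2), m ∈ (tail (span (ZMod 2) (Set.range x)) n : Set E2)
    rw [Ultrafilter.eventually_add]
    filter_upwards [h1] with a ha
    filter_upwards [h2] with b hb
    exact add_mem ha hb
  · intro W hW a hcon
    have h1 : ∀ᶠ m in (↑(p + q) : Filter E2), m ∈ {v : E2 | v - a ∈ W} := hcon
    rw [Ultrafilter.eventually_add] at h1
    obtain ⟨b, hb⟩ := h1.exists
    apply hq.2 W hW (a - b)
    filter_upwards [hb] with c hc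
    have h2 : c - (a - b) = b + c - a := by abel
    change c - (a - b) ∈ W
    rw [h2]
    exact hc

theorem exists_idem {x : ℕ → E2} (hx : IsBlockSeq x) :
    ∃ p : Ultrafilter E2, p ∈ Adm x ∧ p + p = p := by
  obtain ⟨p, hp, hpp⟩ := exists_idempotent_in_compact_add_subsemigroup
    (fun r => Ultrafilter.continuous_add_left r) (Adm x) (adm_nonempty hx)
    (adm_closed x).isCompact (fun p hp q hq => adm_add hp hq)
  exact ⟨p, hp, hpp⟩

end Pool.Agent.MadTwo
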