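import Mathlib
import Pool.Agent.MadTwo.Ultra
import Pool.Agent.MadBlock.InfHit

/-!
# Building block sequences with all finite sums in prescribed large sets
-/

namespace Pool.Agent.MadTwo

open Submodule Pool.Agent.MadBlock Filter

attribute [local instance] Ultrafilter.add Ultrafilter.addSemigroup

def star (p : Ultrafilter E2) (P : Set E2) : Set E2 := {z | z ∈ P ∧ {y | z + y ∈ P} ∈ p}

theorem star_sub {p : Ultrafilter E2} {P : Set E2} : star p P ⊆ P := fun _ h => h.1

theorem star_mem {p : Ultrafilter E2} (hp : p + p = p) {P : Set E2} (hP : P ∈ p) :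
    star p P ∈ p := by
  have h1 : ∀ᶠ m in (↑(p + p) : Filter E2), m ∈ P := by rw [hp]; exact hP
  rw [Ultrafilter.eventually_add] at h1
  have h2 : ∀ᶠ m in (p : Filter E2), m ∈ P := hP
  have h3 : ∀ᶠ m in (p : Filter E2), m ∈ star p P := by
    filter_upwards [h1, h2] with a ha hb
    exact ⟨hb, ha⟩
  exact h3

theorem star_shift {p : Ultrafilter E2} (hp : p + p = p) {P : Set E2} {z : E2}
    (hz : z ∈ star p P) : {y | z + y ∈ star p P} ∈ p := by
  have h1 := star_mem hp hz.2
  have h2 : ∀ᶠ m in (p : Filter E2), m ∈ star p {y | z + y ∈ P} := h1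
  have h3 : ∀ᶠ m in (p : Filter E2), z + m ∈ star p P := by
    filter_upwards [h2] with y hy
    refine ⟨hy.1, ?_⟩
    have h4 : {w | z + y + w ∈ P} = {w | y + w ∈ {y | z + y ∈ P}} := by
      ext w
      simp only [Set.mem_ofPred_eq, add_assoc]
    rw [h4]
    exact hy.2
  exact h3

/-- extension of a finite sequence by zero -/
def ext0 {n : ℕ} (f : Fin n → E2) (i : ℕ) : E2 := if h : i < n then f ⟨i, h⟩ else 0

/-- sums over nonempty subsets of `[k, n)` -/
noncomputable def Fk {n : ℕ} (f : Fin n → E2) (k : ℕ) : Finset E2 := by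
  classical
  exact (((Finset.range n).filter (fun i => k ≤ i)).powerset.filter
    (fun t => t.Nonempty)).image (fun t => ∑ i ∈ t, ext0 f i)

theorem mem_Fk {n : ℕ} {f : Fin n → E2} {k : ℕ} {w : E2} :
    w ∈ Fk f k ↔ ∃ t : Finset ℕ, t.Nonempty ∧ (∀ i ∈ t, k ≤ i ∧ i < n) ∧
      ∑ i ∈ t, ext0 f i = w := by
  classical
  simp only [Fk, Finset.mem_image, Finset.mem_filter, Finset.mem_powerset]
  constructor
  · rintro ⟨t, ⟨h1, h2⟩, h3⟩
    refine ⟨t, h2, fun i hi => ?_, h3⟩
    have := Finset.mem_filter.mp (h1 hi)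
    exact ⟨this.2, Finset.mem_range.mp this.1⟩
  · rintro ⟨t, h1, h2, h3⟩
    refine ⟨t, ⟨fun i hi => ?_, h1⟩, h3⟩
    exact Finset.mem_filter.mpr ⟨Finset.mem_range.mpr (h2 i hi).2, (h2 i hi).1⟩

/-- a bound for the supports of a finite sequence -/
noncomputable def bd {n : ℕ} (f : Fin n → E2) : ℕ :=
  (Finset.univ.sup fun i => (f i).support.sup id) + 1

theorem lt_bd {n : ℕ} {f : Fin n → E2} {i : Fin n} {j : ℕ} (hj : j ∈ (f i).support) :
    j < bd f := by
  have h1 : j ≤ (f i).support.sup id := Finset.le_sup (f := id) hj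
  have h2 : (f i).support.sup id ≤ Finset.univ.sup fun i => (f i).support.sup id :=
    Finset.le_sup (f := fun i => (f i).support.sup id) (Finset.mem_univ i)
  unfold bd
  omega

theorem build {V : Submodule (ZMod 2) E2} (p : Ultrafilter E2) (Q : ℕ → Set E2)
    (R : (n : ℕ) → (Fin n → E2) → Set E2)
    (hR : ∀ n (f : Fin n → E2) (F : ℕ → Finset E2), (∀ k, (F k : Set E2) ⊆ star p (Q k)) →
      ∀ m, ∃ a ∈ R n f, a ∈ tail V m ∧ a ≠ 0 ∧
        ∀ k, k ≤ n → a ∈ star p (Q k) ∧ ∀ w ∈ F k, w + a ∈ star p (Q k)) :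
    ∃ y : ℕ → E2, IsBlockSeq y ∧ (∀ n, y n ∈ V) ∧ (∀ n, y n ∈ R n fun i => y i) ∧
      ∀ k (s : Finset ℕ), s.Nonempty → (∀ i ∈ s, k ≤ i) → ∑ i ∈ s, y i ∈ star p (Q k) := by
  classical
  obtain ⟨y, hy⟩ := exists_strong_seq (α := E2) (fun n f a =>
    (∀ k, (Fk f k : Set E2) ⊆ star p (Q k)) → a ∈ R n f ∧ a ∈ tail V (bd f) ∧ a ≠ 0 ∧
      ∀ k, k ≤ n → a ∈ star p (Q k) ∧ ∀ w ∈ Fk f k, w + a ∈ star p (Q k)) (by
    intro n f
    by_cases h : ∀ k, (Fk f k : Set E2) ⊆ star p (Q k)
    · obtain ⟨a, h1, h2, h3, h4⟩ := hR n f (Fk f) h (bd f)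
      exact ⟨a, fun _ => ⟨h1, h2, h3, h4⟩⟩
    · exact ⟨0, fun h' => absurd h' h⟩)
  have hext : ∀ n i, i < n → ext0 (fun i : Fin n => y i) i = y i := by
    intro n i hi
    simp only [ext0, hi, dif_pos]
  have key : ∀ n k (t : Finset ℕ), t.Nonempty → (∀ i ∈ t, k ≤ i ∧ i < n) →
      ∑ i ∈ t, y i ∈ star p (Q k) := by
    intro n
    induction n with
    | zero =>
      intro k t ht h
      obtain ⟨i, hi⟩ := ht
      have := (h i hi).2
      omega
    | succ n ih =>
      have hF : ∀ k, (Fk (fun i : Fin n => y i) k : Set E2) ⊆ star p (Q k) := by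
        intro k w hw
        obtain ⟨t, h1, h2, h3⟩ := mem_Fk.mp hw
        rw [← h3, Finset.sum_congr rfl (fun i hi => hext n i (h2 i hi).2)]
        exact ih k t h1 h2
      obtain ⟨_, _, _, h4⟩ := hy n hF
      intro k t ht h
      by_cases hn : n ∈ t
      · have hk : k ≤ n := (h n hn).1
        obtain ⟨h5, h6⟩ := h4 k hk
        rw [← Finset.sum_erase_add t y hn]
        by_cases he : (t.erase n).Nonempty
        · apply h6
          rw [mem_Fk]
          refine ⟨t.erase n, he, fun i hi => ?_, ?_⟩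
          · have h7 := h i (Finset.mem_of_mem_erase hi)
            have h8 := Finset.ne_of_mem_erase hi
            omega
          · apply Finset.sum_congr rfl
            intro i hi
            have h7 := h i (Finset.mem_of_mem_erase hi)
            have h8 := Finset.ne_of_mem_erase hi
            exact hext n i (by omega)
        · rw [Finset.not_nonempty_iff_eq_empty] at he
          rw [he, Finset.sum_empty, zero_add]
          exact h5
      · apply ih k t ht
        intro i hi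
        have h7 := h i hi
        have : i ≠ n := fun h8 => hn (h8 ▸ hi)
        omega
  have hF : ∀ n k, (Fk (fun i : Fin n => y i) k : Set E2) ⊆ star p (Q k) := by
    intro n k w hw
    obtain ⟨t, h1, h2, h3⟩ := mem_Fk.mp hw
    rw [← h3, Finset.sum_congr rfl (fun i hi => hext n i (h2 i hi).2)]
    exact key n k t h1 h2
  refine ⟨y, ?_, ?_, ?_, ?_⟩
  · intro n
    refine ⟨(hy n (hF n)).2.2.1, ?_⟩
    intro i hi j hj
    have h1 := (hy (n + 1) (hF (n + 1))).2.1.2
    have h2 : i < bd (fun i : Fin (n + 1) => y i) :=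
      lt_bd (f := fun i : Fin (n + 1) => y i) (i := ⟨n, by omega⟩) hi
    by_contra h3
    exact (Finsupp.mem_support_iff.mp hj) (h1 j (by omega))
  · exact fun n => (hy n (hF n)).2.1.1
  · exact fun n => (hy n (hF n)).1
  · intro k s hs h
    apply key (s.sup id + 1) k s hs
    intro i hi
    exact ⟨h i hi, Nat.lt_succ_of_le (Finset.le_sup (f := id) hi)⟩

/-- over the field with two elements, elements of a span are finite sums -/
theorem mem_span_two {y : ℕ → E2} {v : E2} (hv : v ∈ span (ZMod 2) (Set.range y)) :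
    ∃ s : Finset ℕ, v = ∑ i ∈ s, y i := by
  classical
  obtain ⟨c, hc⟩ := (Finsupp.mem_span_range_iff_exists_finsupp).mp hv
  refine ⟨c.support, ?_⟩
  rw [← hc, Finsupp.sum]
  apply Finset.sum_congr rfl
  intro i hi
  have h1 : c i ≠ 0 := Finsupp.mem_support_iff.mp hi
  have h2 : ∀ a : ZMod 2, a ≠ 0 → a = 1 := by decide
  rw [h2 _ h1, one_smul]

end Pool.Agent.MadTwo
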