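import Mathlib

/-!
# Located variable words over a three letter alphabet and their Ramsey property
-/

namespace Pool.Agent.MadTwo

/-- Located words: a word is a finitely supported function `w : ℕ → ZMod 5`.  The value `0` means
that the position is not in the domain of `w`, the values `1, 2, 3` are the three letters and the
value `4` is the variable.  Words with disjoint domains are united by addition. -/
abbrev Word := ℕ →₀ ZMod 5

/-- Substitution of `a` (a letter `1, 2, 3`, or `4` for no change) for the variable in `w`. -/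
noncomputable def subst (a : ZMod 5) (w : Word) : Word :=
  w.mapRange (fun b => if b = 4 then a else b) (if_neg (by decide))

/-- A block sequence of located variable words: every word contains the variable and every position
used by `u n` is smaller than every position used by `u (n + 1)`. -/
def IsVarSeq (u : ℕ → Word) : Prop :=
  ∀ n, (∃ i, u n i = 4) ∧ ∀ i ∈ (u n).support, ∀ j ∈ (u (n + 1)).support, i < j

/-- `v` is a reduced variable word of `u`: `v` is the union of `u k [a k]`, `k ∈ s`, where `s` is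
finite, each `a k` is a letter or the variable, and at least one `a k` is the variable. -/
def Reduced (u : ℕ → Word) (v : Word) : Prop :=
  ∃ (s : Finset ℕ) (a : ℕ → ZMod 5), (∀ k ∈ s, a k ≠ 0) ∧ (∃ k ∈ s, a k = 4) ∧
    v = ∑ k ∈ s, subst (a k) (u k)

/-- `v ≤ u`: every term of `v` is a reduced variable word of `u`. -/
def Le (v u : ℕ → Word) : Prop := ∀ n, Reduced u (v n)

/-- The Ramsey property of a set `S` of sequences of located variable words: every block sequence
`u` has a reduction `u'` such that all reductions of `u'` belong to `S`, or none does. -/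
def RamseyProperty (S : Set (ℕ → Word)) : Prop :=
  ∀ u, IsVarSeq u → ∃ u', IsVarSeq u' ∧ Le u' u ∧
    ((∀ v, IsVarSeq v → Le v u' → v ∈ S) ∨ (∀ v, IsVarSeq v → Le v u' → v ∉ S))

theorem subst_apply (a : ZMod 5) (w : Word) (i : ℕ) :
    subst a w i = if w i = 4 then a else w i := by
  simp [subst]

theorem subst_four (w : Word) : subst 4 w = w := by
  ext i
  rw [subst_apply]
  by_cases h : w i = 4 <;> simp [h]

theorem subst_subst (a b : ZMod 5) (w : Word) :
    subst a (subst b w) = subst (if b = 4 then a else b) w := by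
  ext i
  simp only [subst_apply]
  by_cases h : w i = 4 <;> simp [h]

theorem subst_eq_zero {a : ZMod 5} (ha : a ≠ 0) {w : Word} {i : ℕ} :
    subst a w i = 0 ↔ w i = 0 := by
  rw [subst_apply]
  have h40 : (4 : ZMod 5) ≠ 0 := by decide
  by_cases h : w i = 4
  · simp [h, ha, h40]
  · simp [h]

namespace IsVarSeq

variable {u : ℕ → Word}

theorem nonempty (hu : IsVarSeq u) (n : ℕ) : (u n).support.Nonempty := by
  obtain ⟨i, hi⟩ := (hu n).1
  refine ⟨i, Finsupp.mem_support_iff.mpr ?_⟩
  rw [hi]
  decide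

theorem lt (hu : IsVarSeq u) {m n : ℕ} (h : m < n) :
    ∀ i ∈ (u m).support, ∀ j ∈ (u n).support, i < j := by
  induction n with
  | zero => omega
  | succ n ih =>
    intro i hi j hj
    rcases Nat.lt_succ_iff_lt_or_eq.mp h with h1 | h1
    · obtain ⟨k, hk⟩ := hu.nonempty n
      exact lt_trans (ih h1 i hi k hk) ((hu n).2 k hk j hj)
    · subst h1
      exact (hu m).2 i hi j hj

theorem ge (hu : IsVarSeq u) : ∀ n, ∀ i ∈ (u n).support, n ≤ i := by
  intro n
  induction n with
  | zero => intro i _; omega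
  | succ n ih =>
    intro i hi
    obtain ⟨k, hk⟩ := hu.nonempty n
    have h1 := ih k hk
    have h2 := (hu n).2 k hk i hi
    omega

/-- distinct words have disjoint supports -/
theorem unique (hu : IsVarSeq u) {m n i : ℕ} (hm : u m i ≠ 0) (hn : u n i ≠ 0) : m = n := by
  rcases lt_trichotomy m n with h | h | h
  · have := hu.lt h i (Finsupp.mem_support_iff.mpr hm) i (Finsupp.mem_support_iff.mpr hn)
    omega
  · exact h
  · have := hu.lt h i (Finsupp.mem_support_iff.mpr hn) i (Finsupp.mem_support_iff.mpr hm)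
    omega

theorem tail (hu : IsVarSeq u) (k : ℕ) : IsVarSeq (fun n => u (k + n)) := fun n => hu (k + n)

/-- evaluation of a union -/
theorem sum_apply (hu : IsVarSeq u) (s : Finset ℕ) (a : ℕ → ZMod 5) {j i : ℕ} (hj : u j i ≠ 0) :
    (∑ k ∈ s, subst (a k) (u k)) i = if j ∈ s then subst (a j) (u j) i else 0 := by
  classical
  rw [Finsupp.finsetSum_apply]
  have h0 : ∀ k, k ≠ j → subst (a k) (u k) i = 0 := by
    intro k hk
    have h1 : u k i = 0 := by
      by_contra h
      exact hk (hu.unique h hj)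
    rw [subst_apply, h1]
    exact if_neg (by decide)
  by_cases hs : j ∈ s
  · rw [if_pos hs, Finset.sum_eq_single_of_mem j hs (fun k _ hk => h0 k hk)]
  · rw [if_neg hs]
    exact Finset.sum_eq_zero fun k hk => h0 k (fun h => hs (h ▸ hk))

end IsVarSeq

theorem sum_apply_zero {u : ℕ → Word} (s : Finset ℕ) (a : ℕ → ZMod 5) {i : ℕ}
    (hi : ∀ j, u j i = 0) : (∑ k ∈ s, subst (a k) (u k)) i = 0 := by
  classical
  rw [Finsupp.finsetSum_apply]
  refine Finset.sum_eq_zero fun k _ => ?_
  rw [subst_apply, hi k]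
  exact if_neg (by decide)

/-- pointwise description of the reduced words -/
theorem reduced_iff {u : ℕ → Word} (hu : IsVarSeq u) (v : Word) :
    Reduced u v ↔ (∃ i, v i = 4) ∧ (∀ i, v i ≠ 0 → ∃ j, u j i ≠ 0) ∧
      ∀ j, (∀ i, u j i ≠ 0 → v i = 0) ∨ ∃ a, a ≠ 0 ∧ ∀ i, u j i ≠ 0 → v i = subst a (u j) i := by
  classical
  constructor
  · rintro ⟨s, a, h1, ⟨k, hk, hk4⟩, rfl⟩
    refine ⟨?_, ?_, ?_⟩
    · obtain ⟨i, hi⟩ := (hu k).1
      have hne : u k i ≠ 0 := by rw [hi]; decide
      refine ⟨i, ?_⟩
      rw [hu.sum_apply s a hne, if_pos hk, subst_apply, if_pos hi, hk4]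
    · intro i hi
      by_contra h
      push Not at h
      exact hi (sum_apply_zero s a h)
    · intro j
      by_cases hj : j ∈ s
      · right
        refine ⟨a j, h1 j hj, fun i hi => ?_⟩
        rw [hu.sum_apply s a hi, if_pos hj]
      · left
        intro i hi
        rw [hu.sum_apply s a hi, if_neg hj]
  · rintro ⟨⟨i0, hi0⟩, h2, h3⟩
    have h4 : ∀ j, ∃ a : ZMod 5, (∃ i, u j i ≠ 0 ∧ v i ≠ 0) → a ≠ 0 ∧
        ∀ i, u j i ≠ 0 → v i = subst a (u j) i := by
      intro j
      rcases h3 j with h | ⟨a, ha, h⟩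
      · exact ⟨0, fun ⟨i, hi, hi'⟩ => absurd (h i hi) hi'⟩
      · exact ⟨a, fun _ => ⟨ha, h⟩⟩
    choose a ha using h4
    let s : Finset ℕ := (Finset.range (v.support.sup id + 1)).filter
      (fun j => ∃ i, u j i ≠ 0 ∧ v i ≠ 0)
    have hs : ∀ j, j ∈ s ↔ ∃ i, u j i ≠ 0 ∧ v i ≠ 0 := by
      intro j
      simp only [s, Finset.mem_filter, Finset.mem_range, and_iff_right_iff_imp]
      rintro ⟨i, hi, hi'⟩
      have h5 := hu.ge j i (Finsupp.mem_support_iff.mpr hi)
      have h6 : i ≤ v.support.sup id :=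
        Finset.le_sup (f := id) (Finsupp.mem_support_iff.mpr hi')
      omega
    refine ⟨s, a, fun k hk => (ha k ((hs k).mp hk)).1, ?_, ?_⟩
    · have hv0 : v i0 ≠ 0 := by rw [hi0]; decide
      obtain ⟨j, hj⟩ := h2 i0 hv0
      have hjs : ∃ i, u j i ≠ 0 ∧ v i ≠ 0 := ⟨i0, hj, hv0⟩
      refine ⟨j, (hs j).mpr hjs, ?_⟩
      have h7 := (ha j hjs).2 i0 hj
      rw [hi0, subst_apply] at h7
      by_cases h8 : u j i0 = 4
      · rw [if_pos h8] at h7
        exact h7.symm
      · rw [if_neg h8] at h7
        exact absurd h7.symm h8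
    · ext i
      by_cases hi : ∃ j, u j i ≠ 0
      · obtain ⟨j, hj⟩ := hi
        rw [hu.sum_apply s a hj]
        by_cases hjs : j ∈ s
        · rw [if_pos hjs]
          exact (ha j ((hs j).mp hjs)).2 i hj
        · rw [if_neg hjs]
          by_contra h
          exact hjs ((hs j).mpr ⟨i, hj, h⟩)
      · push Not at hi
        rw [sum_apply_zero s a hi]
        by_contra h
        obtain ⟨j, hj⟩ := h2 i h
        exact hj (hi j)

theorem Reduced.trans {u w : ℕ → Word} (hu : IsVarSeq u) (hw : IsVarSeq w) (hwu : Le w u)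
    {v : Word} (hv : Reduced w v) : Reduced u v := by
  rw [reduced_iff hu]
  rw [reduced_iff hw] at hv
  obtain ⟨h1, h2, h3⟩ := hv
  refine ⟨h1, ?_, ?_⟩
  · intro i hi
    obtain ⟨j, hj⟩ := h2 i hi
    exact ((reduced_iff hu _).mp (hwu j)).2.1 i hj
  · intro j
    by_cases h : ∃ k i, u j i ≠ 0 ∧ w k i ≠ 0
    · obtain ⟨k, i0, hi0, hk0⟩ := h
      rcases ((reduced_iff hu _).mp (hwu k)).2.2 j with h4 | ⟨b, hb, h4⟩
      · exact absurd (h4 i0 hi0) hk0
      · have h5 : ∀ i, u j i ≠ 0 → w k i ≠ 0 := by
          intro i hi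
          rw [h4 i hi]
          exact fun h6 => hi ((subst_eq_zero hb).mp h6)
        rcases h3 k with h6 | ⟨a, ha, h6⟩
        · left
          exact fun i hi => h6 i (h5 i hi)
        · right
          refine ⟨if b = 4 then a else b, ?_, ?_⟩
          · split_ifs
            · exact ha
            · exact hb
          · intro i hi
            rw [h6 i (h5 i hi), ← subst_subst, subst_apply, h4 i hi, ← subst_apply]
    · push Not at h
      left
      intro i hi
      by_contra h4
      obtain ⟨k, hk⟩ := h2 i h4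
      exact hk (h k i hi)

theorem Le.trans {u w v : ℕ → Word} (hu : IsVarSeq u) (hw : IsVarSeq w) (hvw : Le v w)
    (hwu : Le w u) : Le v u := fun n => (hvw n).trans hu hw hwu

theorem Le.refl {u : ℕ → Word} : Le u u := by
  classical
  intro n
  refine ⟨{n}, fun _ => 4, fun k _ => (by decide : (4 : ZMod 5) ≠ 0), ⟨n, Finset.mem_singleton_self n, rfl⟩, ?_⟩
  rw [Finset.sum_singleton, subst_four]

/-- a reduced word whose domain starts late is reduced for the tail -/
theorem reduced_tail {u : ℕ → Word} (hu : IsVarSeq u) {v : Word} (hv : Reduced u v) (k : ℕ)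
    (h : ∀ j, j < k → ∀ i, u j i ≠ 0 → v i = 0) : Reduced (fun n => u (k + n)) v := by
  rw [reduced_iff (hu.tail k)]
  rw [reduced_iff hu] at hv
  obtain ⟨h1, h2, h3⟩ := hv
  refine ⟨h1, ?_, fun j => h3 (k + j)⟩
  intro i hi
  obtain ⟨j, hj⟩ := h2 i hi
  by_cases hjk : j < k
  · exact absurd (h j hjk i hj) hi
  · refine ⟨j - k, ?_⟩
    have : k + (j - k) = j := by omega
    rw [this]
    exact hj

/-- some tail of a reduction of `u` is a reduction of a given tail of `u` -/
theorem exists_tail_le {u v : ℕ → Word} (hu : IsVarSeq u) (hv : IsVarSeq v) (hvu : Le v u)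
    (k : ℕ) : ∃ m, ∀ n, m ≤ n → Reduced (fun n => u (k + n)) (v n) := by
  classical
  refine ⟨((Finset.range k).sup fun j => (u j).support.sup id) + 1, fun n hn => ?_⟩
  apply reduced_tail hu (hvu n) k
  intro j hj i hi
  by_contra h
  have h1 := hv.ge n i (Finsupp.mem_support_iff.mpr h)
  have h2 : i ≤ (u j).support.sup id :=
    Finset.le_sup (f := id) (Finsupp.mem_support_iff.mpr hi)
  have h3 : (u j).support.sup id ≤ (Finset.range k).sup fun j => (u j).support.sup id :=
    Finset.le_sup (f := fun j => (u j).support.sup id) (Finset.mem_range.mpr hj)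
  omega

end Pool.Agent.MadTwo
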