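import Mathlib
import Pool.Agent.MadTwo.Words
import Pool.Agent.MadBlock.InfHit

/-!
# Fusion: one block sequence which is homogeneous for countably many sets
-/

namespace Pool.Agent.MadTwo

open Pool.Agent.MadBlock

theorem isVarSeq_std : IsVarSeq (fun n => Finsupp.single n (4 : ZMod 5)) := by
  intro n
  refine ⟨⟨n, Finsupp.single_eq_same⟩, ?_⟩
  intro i hi j hj
  rw [Finsupp.support_single _ (by decide : (4 : ZMod 5) ≠ 0), Finset.mem_singleton] at hi hj
  omega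

/-- diagonal sequence of a decreasing chain -/
theorem exists_diagonal (w : ℕ → ℕ → Word) (hw : ∀ k, IsVarSeq (w k))
    (hle : ∀ k, Le (w (k + 1)) (w k)) :
    ∃ u, IsVarSeq u ∧ ∀ k n, k ≤ n → Reduced (w k) (u n) := by
  classical
  obtain ⟨u, hu⟩ := exists_strong_seq (α := Word) (fun n f a =>
    (∃ j, a = w n j) ∧ ∀ m : Fin n, ∀ i ∈ (f m).support, ∀ j ∈ a.support, i < j) (by
    intro n f
    refine ⟨w n (Finset.univ.sup (fun m => (f m).support.sup id) + 1), ⟨_, rfl⟩, ?_⟩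
    intro m i hi j hj
    have h1 := (hw n).ge _ j hj
    have h2 : i ≤ (f m).support.sup id := Finset.le_sup (f := id) hi
    have h3 : (f m).support.sup id ≤ Finset.univ.sup (fun m => (f m).support.sup id) :=
      Finset.le_sup (f := fun m => (f m).support.sup id) (Finset.mem_univ m)
    omega)
  have hchain : ∀ k d, Le (w (k + d)) (w k) := by
    intro k d
    induction d with
    | zero => exact Le.refl
    | succ d ih => exact Le.trans (hw k) (hw (k + d)) (hle (k + d)) ih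
  refine ⟨u, ?_, ?_⟩
  · intro n
    obtain ⟨⟨j, hj⟩, _⟩ := hu n
    refine ⟨?_, ?_⟩
    · rw [hj]
      exact (hw n j).1
    · intro i hi j hj
      exact (hu (n + 1)).2 ⟨n, by omega⟩ i hi j hj
  · intro k n hkn
    obtain ⟨⟨j, hj⟩, _⟩ := hu n
    rw [hj]
    obtain ⟨d, rfl⟩ := Nat.exists_eq_add_of_le hkn
    exact hchain k d j

theorem fusion (S : ℕ → Set (ℕ → Word)) (hS : ∀ k, RamseyProperty (S k)) :
    ∃ u, IsVarSeq u ∧ ∀ k,
      (∃ w, IsVarSeq w ∧ (∀ v, IsVarSeq v → Le v w → v ∈ S k) ∧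
        ∀ v, IsVarSeq v → Le v u → ∃ m, ∀ m', m ≤ m' → Le (fun n => v (m' + n)) w) ∨
      (∃ w, IsVarSeq w ∧ (∀ v, IsVarSeq v → Le v w → v ∉ S k) ∧
        ∀ v, IsVarSeq v → Le v u → ∃ m, ∀ m', m ≤ m' → Le (fun n => v (m' + n)) w) := by
  classical
  have hS' : ∀ (k : ℕ) (u : {u : ℕ → Word // IsVarSeq u}), ∃ u' : {u : ℕ → Word // IsVarSeq u},
      Le u'.1 u.1 ∧ ((∀ v, IsVarSeq v → Le v u'.1 → v ∈ S k) ∨
        (∀ v, IsVarSeq v → Le v u'.1 → v ∉ S k)) := by
    intro k u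
    obtain ⟨u', h1, h2, h3⟩ := hS k u.1 u.2
    exact ⟨⟨u', h1⟩, h2, h3⟩
  choose g hg1 hg2 using hS'
  let w : ℕ → {u : ℕ → Word // IsVarSeq u} := fun n =>
    Nat.rec ⟨_, isVarSeq_std⟩ (fun k u => g k u) n
  have hw : ∀ k, w (k + 1) = g k (w k) := fun _ => rfl
  obtain ⟨u, hu1, hu2⟩ := exists_diagonal (fun k => (w k).1) (fun k => (w k).2)
    (fun k => by rw [hw k]; exact hg1 k (w k))
  refine ⟨u, hu1, fun k => ?_⟩
  have htail : ∀ v, IsVarSeq v → Le v u →
      ∃ m, ∀ m', m ≤ m' → Le (fun n => v (m' + n)) (w (k + 1)).1 := by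
    intro v hv hvu
    obtain ⟨m, hm⟩ := exists_tail_le hu1 hv hvu (k + 1)
    refine ⟨m, fun m' hm' n => ?_⟩
    refine Reduced.trans (w (k + 1)).2 (hu1.tail (k + 1)) ?_ (hm (m' + n) (by omega))
    intro n'
    exact hu2 (k + 1) (k + 1 + n') (by omega)
  rcases hg2 k (w k) with h | h
  · left
    exact ⟨(w (k + 1)).1, (w (k + 1)).2, by rw [hw k]; exact h, htail⟩
  · right
    exact ⟨(w (k + 1)).1, (w (k + 1)).2, by rw [hw k]; exact h, htail⟩

end Pool.Agent.MadTwo
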