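import Mathlib
import Pool.Agent.MadTwo.Basic
import Pool.Agent.MadBlock.InfHit

/-!
# Generic helpers over a field with two elements
-/

namespace Pool.Agent.MadTwo

open Submodule Pool.Agent.MadBlock

section gen

variable {F : Type*} [Field F]

/-- a bound for the supports of a finite sequence -/
noncomputable def bdF {n : ℕ} (f : Fin n → (ℕ →₀ F)) : ℕ :=
  (Finset.univ.sup fun i => (f i).support.sup id) + 1

theorem lt_bdF {n : ℕ} {f : Fin n → (ℕ →₀ F)} {i : Fin n} {j : ℕ} (hj : j ∈ (f i).support) :
    j < bdF f := by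
  have h1 : j ≤ (f i).support.sup id := Finset.le_sup (f := id) hj
  have h2 : (f i).support.sup id ≤ Finset.univ.sup fun i => (f i).support.sup id :=
    Finset.le_sup (f := fun i => (f i).support.sup id) (Finset.mem_univ i)
  unfold bdF
  omega

/-- over a field with two elements, elements of a span are finite sums -/
theorem mem_span_twoF (hF : ∀ a : F, a ≠ 0 → a = 1) {y : ℕ → (ℕ →₀ F)} {v : ℕ →₀ F}
    (hv : v ∈ span F (Set.range y)) : ∃ s : Finset ℕ, v = ∑ i ∈ s, y i := by
  classical
  obtain ⟨c, hc⟩ := (Finsupp.mem_span_range_iff_exists_finsupp).mp hv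
  refine ⟨c.support, ?_⟩
  rw [← hc, Finsupp.sum]
  apply Finset.sum_congr rfl
  intro i hi
  have h1 : c i ≠ 0 := Finsupp.mem_support_iff.mp hi
  rw [hF _ h1, one_smul]

end gen

end Pool.Agent.MadTwo
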