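import Mathlib
import Pool.Agent.MadTwo.Fusion
import Pool.Agent.MadTwo.Gen

/-!
# Evaluation of words in the vector space
-/

namespace Pool.Agent.MadTwo

open Submodule Pool.Agent.MadBlock

variable {F : Type*} [Field F]

/-- the vector of the symbol `a` at position `i` -/
noncomputable def val (c : ℕ → (ℕ →₀ F)) (i : ℕ) (a : ZMod 5) : (ℕ →₀ F) :=
  if a = 2 then c (2 * i) else if a = 3 then c (2 * i + 1) else 0

/-- the vector of a word -/
noncomputable def ev (c : ℕ → (ℕ →₀ F)) (w : Word) : (ℕ →₀ F) := w.sum (fun i a => val c i a)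

theorem val_zero (c : ℕ → (ℕ →₀ F)) (i : ℕ) : val c i 0 = 0 := by
  unfold val
  rw [if_neg (by decide), if_neg (by decide)]

theorem subst_sum {u : ℕ → Word} (hu : IsVarSeq u) (s : Finset ℕ) (a : ℕ → ZMod 5) (b : ZMod 5) :
    subst b (∑ k ∈ s, subst (a k) (u k)) =
      ∑ k ∈ s, subst (if a k = 4 then b else a k) (u k) := by
  classical
  ext i
  rw [subst_apply]
  by_cases h : ∃ j, u j i ≠ 0
  · obtain ⟨j, hj⟩ := h
    rw [hu.sum_apply s a hj, hu.sum_apply s (fun k => if a k = 4 then b else a k) hj]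
    by_cases hjs : j ∈ s
    · rw [if_pos hjs, if_pos hjs, ← subst_apply, subst_subst]
    · rw [if_neg hjs, if_neg hjs]
      exact if_neg (by decide)
  · push Not at h
    rw [sum_apply_zero s a h, sum_apply_zero s (fun k => if a k = 4 then b else a k) h]
    exact if_neg (by decide)

theorem ev_sum {u : ℕ → Word} (hu : IsVarSeq u) (c : ℕ → (ℕ →₀ F)) (s : Finset ℕ) (a : ℕ → ZMod 5) :
    ev c (∑ k ∈ s, subst (a k) (u k)) = ∑ k ∈ s, ev c (subst (a k) (u k)) := by
  classical
  induction s using Finset.induction_on with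
  | empty => simp [ev]
  | insert k s hk ih =>
    rw [Finset.sum_insert hk, Finset.sum_insert hk, ← ih]
    unfold ev
    apply Finsupp.sum_add_index_of_disjoint
    rw [Finset.disjoint_left]
    intro i hi hi'
    have h1 : u k i ≠ 0 := by
      intro h
      apply Finsupp.mem_support_iff.mp hi
      rw [subst_apply, h]
      exact if_neg (by decide)
    apply Finsupp.mem_support_iff.mp hi'
    rw [hu.sum_apply s a h1, if_neg hk]

theorem ev_subst (c : ℕ → (ℕ →₀ F)) (a : ZMod 5) (w : Word) :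
    ev c (subst a w) = ∑ i ∈ w.support, val c i (if w i = 4 then a else w i) := by
  classical
  unfold ev
  rw [Finsupp.sum_of_support_subset (s := w.support) _ ?_ _ (fun i _ => val_zero c i)]
  · apply Finset.sum_congr rfl
    intro i _
    rw [subst_apply]
  · intro i hi
    rw [Finsupp.mem_support_iff] at hi ⊢
    intro h
    apply hi
    rw [subst_apply, h]
    exact if_neg (by decide)

theorem block_zero {c : ℕ → (ℕ →₀ F)} (hc : IsBlockSeq c) {m n k : ℕ} (hmn : m ≠ n)
    (hk : c n k ≠ 0) : c m k = 0 := by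
  by_contra h
  rcases lt_or_gt_of_ne hmn with h1 | h1
  · have := hc.bef h1 k (Finsupp.mem_support_iff.mpr h) k (Finsupp.mem_support_iff.mpr hk)
    omega
  · have := hc.bef h1 k (Finsupp.mem_support_iff.mpr hk) k (Finsupp.mem_support_iff.mpr h)
    omega

theorem val_cases (c : ℕ → (ℕ →₀ F)) (i : ℕ) (a : ZMod 5) :
    val c i a = c (2 * i) ∨ val c i a = c (2 * i + 1) ∨ val c i a = 0 := by
  unfold val
  split_ifs
  · exact Or.inl rfl
  · exact Or.inr (Or.inl rfl)
  · exact Or.inr (Or.inr rfl)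

theorem val_apply_zero {c : ℕ → (ℕ →₀ F)} (hc : IsBlockSeq c) {i i0 k : ℕ} (b : ℕ) (hb : b < 2)
    (hi : i ≠ i0) (hk : c (2 * i0 + b) k ≠ 0) (a : ZMod 5) : val c i a k = 0 := by
  rcases val_cases c i a with h | h | h
  · rw [h]
    exact block_zero hc (by omega) hk
  · rw [h]
    exact block_zero hc (by omega) hk
  · rw [h]
    rfl

theorem supp_ev {c : ℕ → (ℕ →₀ F)} {w : Word} {k : ℕ} (hk : k ∈ (ev c w).support) :
    ∃ i ∈ w.support, k ∈ (c (2 * i)).support ∨ k ∈ (c (2 * i + 1)).support := by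
  classical
  rw [Finsupp.mem_support_iff] at hk
  unfold ev at hk
  rw [Finsupp.sum, Finsupp.finsetSum_apply] at hk
  obtain ⟨i, hi, hi'⟩ := Finset.exists_ne_zero_of_sum_ne_zero hk
  refine ⟨i, hi, ?_⟩
  rcases val_cases c i (w i) with h | h | h
  · left
    rw [Finsupp.mem_support_iff, ← h]
    exact hi'
  · right
    rw [Finsupp.mem_support_iff, ← h]
    exact hi'
  · rw [h] at hi'
    exact absurd rfl hi'

theorem supp_subst {a : ZMod 5} {w : Word} {i : ℕ} (hi : i ∈ (subst a w).support) :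
    i ∈ w.support := by
  rw [Finsupp.mem_support_iff] at hi ⊢
  intro h
  apply hi
  rw [subst_apply, h]
  exact if_neg (by decide)

/-- substituting the letter `2` for the variable gives block sequences of vectors -/
theorem block_ev {c : ℕ → (ℕ →₀ F)} (hc : IsBlockSeq c) {u : ℕ → Word} (hu : IsVarSeq u) :
    IsBlockSeq (fun n => ev c (subst 2 (u n))) := by
  classical
  intro n
  refine ⟨?_, ?_⟩
  · obtain ⟨i0, hi0⟩ := (hu n).1
    obtain ⟨k, hk⟩ := Finsupp.support_nonempty_iff.mpr (hc (2 * i0)).1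
    rw [Finsupp.mem_support_iff] at hk
    intro h
    have h1 : ev c (subst 2 (u n)) k = 0 := by
      have := congrArg (fun f : (ℕ →₀ F) => f k) h
      simpa using this
    rw [ev_subst, Finsupp.finsetSum_apply] at h1
    have hmem : i0 ∈ (u n).support := by
      rw [Finsupp.mem_support_iff, hi0]
      decide
    rw [Finset.sum_eq_single_of_mem i0 hmem
      (fun i _ hi => val_apply_zero hc 0 (by omega) hi hk _)] at h1
    rw [if_pos hi0] at h1
    unfold val at h1
    rw [if_pos rfl] at h1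
    exact hk h1
  · intro k hk l hl
    obtain ⟨i, hi, hi'⟩ := supp_ev hk
    obtain ⟨j, hj, hj'⟩ := supp_ev hl
    have hij := (hu n).2 i (supp_subst hi) j (supp_subst hj)
    rcases hi' with h | h <;> rcases hj' with h' | h'
    · exact hc.bef (by omega) k h l h'
    · exact hc.bef (by omega) k h l h'
    · exact hc.bef (by omega) k h l h'
    · exact hc.bef (by omega) k h l h'

/-- the contribution of the variable positions -/
theorem ev_diff (c : ℕ → (ℕ →₀ F)) (w : Word) (a : ZMod 5) :
    ev c (subst a w) - ev c (subst 1 w) =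
      ∑ i ∈ w.support, if w i = 4 then val c i a else 0 := by
  classical
  rw [ev_subst, ev_subst, ← Finset.sum_sub_distrib]
  apply Finset.sum_congr rfl
  intro i _
  by_cases h : w i = 4
  · rw [if_pos h, if_pos h, if_pos h]
    have : val c i 1 = 0 := by
      unfold val
      rw [if_neg (by decide), if_neg (by decide)]
    rw [this, sub_zero]
  · rw [if_neg h, if_neg h, if_neg h, sub_self]

/-- there is a block sequence alternating between two block subspaces -/
theorem exists_alt {A1 A2 : Submodule F (ℕ →₀ F)} (h1 : IsBlockSubspace A1)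
    (h2 : IsBlockSubspace A2) : ∃ c : ℕ → (ℕ →₀ F), IsBlockSeq c ∧ (∀ i, c (2 * i) ∈ A1) ∧
      ∀ i, c (2 * i + 1) ∈ A2 := by
  classical
  have hex : ∀ A : Submodule F (ℕ →₀ F), IsBlockSubspace A → ∀ N, ∃ a ∈ A, a ≠ 0 ∧
      ∀ i ∈ a.support, N ≤ i := by
    rintro A ⟨x, hx, rfl⟩ N
    exact ⟨x N, subset_span ⟨N, rfl⟩, (hx N).1, hx.ge N⟩
  obtain ⟨c, hc⟩ := exists_strong_seq (α := (ℕ →₀ F)) (fun n f a =>
    a ∈ (if Even n then A1 else A2) ∧ a ≠ 0 ∧ ∀ i ∈ a.support, bdF f ≤ i) (by
    intro n f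
    by_cases hn : Even n
    · rw [if_pos hn]
      obtain ⟨a, ha, ha0, ha'⟩ := hex A1 h1 (bdF f)
      exact ⟨a, ha, ha0, ha'⟩
    · rw [if_neg hn]
      obtain ⟨a, ha, ha0, ha'⟩ := hex A2 h2 (bdF f)
      exact ⟨a, ha, ha0, ha'⟩)
  refine ⟨c, ?_, ?_, ?_⟩
  · intro n
    refine ⟨(hc n).2.1, ?_⟩
    intro i hi j hj
    have h3 := (hc (n + 1)).2.2 j hj
    have h4 : i < bdF (fun i : Fin (n + 1) => c i) :=
      lt_bdF (f := fun i : Fin (n + 1) => c i) (i := ⟨n, by omega⟩) hi
    omega
  · intro i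
    have := (hc (2 * i)).1
    rw [if_pos (even_two_mul i)] at this
    exact this
  · intro i
    have := (hc (2 * i + 1)).1
    rw [if_neg (by simp)] at this
    exact this

end Pool.Agent.MadTwo
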