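import Mathlib
import Pool.Agent.MadTwo.Eval

/-!
# A mad family over the field with two elements gives a set without the Ramsey property
-/

namespace Pool.Agent.MadTwo

open Submodule Pool.Agent.MadBlock

variable {F : Type*} [Field F]

/-- the sequences of words whose vectors (letter `2` for the variable) lie in a single member of `A`
which contains `x` -/
def DSet (A : Set (Submodule F (ℕ →₀ F))) (c : ℕ → (ℕ →₀ F)) (x : (ℕ →₀ F)) : Set (ℕ → Word) :=
  {w | ∃ B ∈ A, x ∈ B ∧ ∀ n, ev c (subst 2 (w n)) ∈ B}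

/-- density: every sequence of words has a reduction inside a single member of a mad family -/
theorem dense (hF2 : ∀ a : F, a ≠ 0 → a = 1) {A : Set (Submodule F (ℕ →₀ F))} (hA : IsMadFamily A) {c : ℕ → (ℕ →₀ F)}
    (hc : IsBlockSeq c) {w : ℕ → Word} (hw : IsVarSeq w) :
    ∃ v, IsVarSeq v ∧ Le v w ∧ ∃ B ∈ A, ∀ n, ev c (subst 2 (v n)) ∈ B := by
  classical
  let e : ℕ → (ℕ →₀ F) := fun n => ev c (subst 2 (w n))
  have he : IsBlockSeq e := block_ev hc hw
  obtain ⟨B, hB, hB'⟩ := hA.2.2 _ ⟨e, he, rfl⟩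
  have step : ∀ m : ℕ, ∃ s : Finset ℕ, s.Nonempty ∧ (∀ i ∈ s, m ≤ i) ∧ ∑ i ∈ s, e i ∈ B := by
    intro m
    let e' : ℕ → (ℕ →₀ F) := fun i => e (m + i)
    have hle : span F (Set.range e) ≤ span F (Set.range e') ⊔
        span F (((Finset.range m).image e : Finset (ℕ →₀ F)) : Set (ℕ →₀ F)) := by
      rw [span_le]
      rintro _ ⟨j, rfl⟩
      rw [SetLike.mem_coe]
      by_cases hj : j < m
      · exact mem_sup_right (subset_span (by
          simp only [Finset.coe_image, Finset.coe_range, Set.mem_image, Set.mem_Iio]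
          exact ⟨j, hj, rfl⟩))
      · refine mem_sup_left (subset_span ⟨j - m, ?_⟩)
        change e (m + (j - m)) = e j
        congr 1
        omega
    have hnot : ¬ FiniteDimensional F
        ((span F (Set.range e) ⊓ B) ⊓ span F (Set.range e') :
          Submodule F (ℕ →₀ F)) := by
      intro hfd
      exact hB' (finiteDimensional_of_le_sup hle (FiniteDimensional.span_finset _ _)
        inf_le_left hfd)
    have hne : ((span F (Set.range e) ⊓ B) ⊓ span F (Set.range e') :
          Submodule F (ℕ →₀ F)) ≠ ⊥ := by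
      intro h
      apply hnot
      rw [h]
      infer_instance
    obtain ⟨a, ⟨⟨_, ha2⟩, ha3⟩, ha0⟩ := Submodule.exists_mem_ne_zero_of_ne_bot hne
    obtain ⟨s, hs⟩ := mem_span_twoF hF2 ha3
    have hsne : s.Nonempty := by
      rw [Finset.nonempty_iff_ne_empty]
      rintro rfl
      exact ha0 (by rw [hs, Finset.sum_empty])
    refine ⟨s.map (addLeftEmbedding m), Finset.Nonempty.map hsne, ?_, ?_⟩
    · intro i hi
      obtain ⟨j, _, rfl⟩ := Finset.mem_map.mp hi
      simp [addLeftEmbedding]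
    · rw [Finset.sum_map]
      have : a = ∑ i ∈ s, e (addLeftEmbedding m i) := hs
      rw [← this]
      exact ha2
  choose s hs1 hs2 hs3 using step
  -- successive index sets
  let g : ℕ → ℕ := fun n => Nat.rec 0 (fun _ m => (s m).sup id + 1) n
  have hg : ∀ n, g (n + 1) = (s (g n)).sup id + 1 := fun _ => rfl
  have hsum : ∀ m, (∑ k ∈ s m, w k) = ∑ k ∈ s m, subst ((fun _ => (4 : ZMod 5)) k) (w k) := by
    intro m
    apply Finset.sum_congr rfl
    intro k _
    rw [subst_four]
  refine ⟨fun n => ∑ k ∈ s (g n), w k, ?_, ?_, B, hB, ?_⟩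
  · intro n
    refine ⟨?_, ?_⟩
    · obtain ⟨k, hk⟩ := hs1 (g n)
      obtain ⟨i, hi⟩ := (hw k).1
      refine ⟨i, ?_⟩
      have hne : w k i ≠ 0 := by rw [hi]; decide
      simp only
      rw [hsum, hw.sum_apply _ _ hne, if_pos hk, subst_four]
      exact hi
    · have hsupp : ∀ m i, i ∈ (∑ k ∈ s m, w k).support → ∃ k ∈ s m, i ∈ (w k).support := by
        intro m i hi
        rw [Finsupp.mem_support_iff, Finsupp.finsetSum_apply] at hi
        obtain ⟨k, hk, hk'⟩ := Finset.exists_ne_zero_of_sum_ne_zero hi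
        exact ⟨k, hk, Finsupp.mem_support_iff.mpr hk'⟩
      intro i hi j hj
      obtain ⟨k, hk, hk'⟩ := hsupp _ _ hi
      obtain ⟨l, hl, hl'⟩ := hsupp _ _ hj
      have h1 : k ≤ (s (g n)).sup id := Finset.le_sup (f := id) hk
      have h2 := hs2 (g (n + 1)) l hl
      rw [hg] at h2
      exact hw.lt (by omega) i hk' j hl'
  · intro n
    obtain ⟨k, hk⟩ := hs1 (g n)
    exact ⟨s (g n), fun _ => 4, fun _ _ => (by decide : (4 : ZMod 5) ≠ 0), ⟨k, hk, rfl⟩, hsum _⟩
  · intro n
    simp only
    rw [hsum, subst_sum hw, ev_sum hw]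
    have := hs3 (g n)
    simpa [e] using this

theorem unique_member {A : Set (Submodule F (ℕ →₀ F))} (hA : IsMadFamily A) {c : ℕ → (ℕ →₀ F)}
    (hc : IsBlockSeq c) {v : ℕ → Word} (hv : IsVarSeq v) {B B' : Submodule F (ℕ →₀ F)}
    (hB : B ∈ A) (hB' : B' ∈ A) {m m' : ℕ} (h : ∀ n, m ≤ n → ev c (subst 2 (v n)) ∈ B)
    (h' : ∀ n, m' ≤ n → ev c (subst 2 (v n)) ∈ B') : B = B' := by
  by_contra hne
  refine not_finiteDimensional_of (block_ev hc hv) (U := B ⊓ B') (g := fun n => n + (m + m'))
    (fun n => by omega) (fun n => ⟨h _ (by omega), h' _ (by omega)⟩) (hA.2.1 B hB B' hB' hne)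

/-- a mad family with two members over the field with two elements gives a non-Ramsey set -/
theorem exists_not_ramsey [Countable F] (hF2 : ∀ a : F, a ≠ 0 → a = 1) {A : Set (Submodule F (ℕ →₀ F))} (hA : IsMadFamily A)
    {A1 A2 : Submodule F (ℕ →₀ F)} (h1 : A1 ∈ A) (h2 : A2 ∈ A) (hne : A1 ≠ A2) :
    ∃ (c : ℕ → (ℕ →₀ F)) (x : (ℕ →₀ F)), ¬ RamseyProperty (DSet A c x) := by
  classical
  by_contra hcon
  push Not at hcon
  obtain ⟨c, hc, hc1, hc2⟩ := exists_alt (hA.1 A1 h1) (hA.1 A2 h2)
  obtain ⟨X, hX⟩ := exists_surjective_nat (ℕ →₀ F)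
  obtain ⟨u, hu, hfus⟩ := fusion (fun k => DSet A c (X k)) (fun k => hcon c (X k))
  -- every reduction of `u` is eventually inside a member of `A`
  have step1 : ∀ v, IsVarSeq v → Le v u → ∃ B ∈ A, ∃ m, ∀ n, m ≤ n →
      ev c (subst 2 (v n)) ∈ B := by
    intro v hv hvu
    obtain ⟨k, hk⟩ := hX 0
    rcases hfus k with ⟨w, hw, hw1, hw2⟩ | ⟨w, hw, hw1, _⟩
    · obtain ⟨m, hm⟩ := hw2 v hv hvu
      obtain ⟨B, hB, _, hB'⟩ := hw1 _ (hv.tail m) (hm m (le_refl m))
      refine ⟨B, hB, m, fun n hn => ?_⟩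
      have := hB' (n - m)
      have h3 : m + (n - m) = n := by omega
      simp only [h3] at this
      exact this
    · exfalso
      obtain ⟨v', hv', hv'w, B, hB, hB'⟩ := dense hF2 hA hc hw
      exact hw1 v' hv' hv'w ⟨B, hB, by rw [hk]; exact B.zero_mem, hB'⟩
  obtain ⟨Bs, hBs, ms, hms⟩ := step1 u hu Le.refl
  -- the member does not depend on the reduction
  have step2 : ∀ v, IsVarSeq v → Le v u → ∃ m, ∀ n, m ≤ n → ev c (subst 2 (v n)) ∈ Bs := by
    intro v hv hvu
    obtain ⟨B, hB, m, hm⟩ := step1 v hv hvu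
    have hBB : B = Bs := by
      -- membership of `x` is decided uniformly
      have key : ∀ x, x ∈ B ↔ x ∈ Bs := by
        intro x
        obtain ⟨k, hk⟩ := hX x
        -- for a reduction `v'` with member `B'`, `x ∈ B'` iff tails belong to `DSet`
        have hiff : ∀ (v' : ℕ → Word), IsVarSeq v' → ∀ (B' : Submodule F (ℕ →₀ F)), B' ∈ A →
            ∀ m', (∀ n, m' ≤ n → ev c (subst 2 (v' n)) ∈ B') →
            ∀ m'', m' ≤ m'' → ((fun n => v' (m'' + n)) ∈ DSet A c (X k) ↔ x ∈ B') := by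
          intro v' hv' B' hB' m' hm' m'' hmm
          constructor
          · rintro ⟨B'', hB'', hx, hB3⟩
            have : B'' = B' := unique_member hA hc (hv'.tail m'') hB'' hB' (m := 0) (m' := 0)
              (fun n _ => hB3 n) (fun n _ => hm' _ (by omega))
            rw [← this, ← hk]
            exact hx
          · intro hx
            exact ⟨B', hB', by rw [hk]; exact hx, fun n => hm' _ (by omega)⟩
        rcases hfus k with ⟨w, hw, hw1, hw2⟩ | ⟨w, hw, hw1, hw2⟩
        · obtain ⟨n1, hn1⟩ := hw2 v hv hvu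
          obtain ⟨n2, hn2⟩ := hw2 u hu Le.refl
          have i1 := (hiff v hv B hB m hm (max m n1) (le_max_left _ _)).mp
            (hw1 _ (hv.tail _) (hn1 _ (le_max_right _ _)))
          have i2 := (hiff u hu Bs hBs ms hms (max ms n2) (le_max_left _ _)).mp
            (hw1 _ (hu.tail _) (hn2 _ (le_max_right _ _)))
          exact ⟨fun _ => i2, fun _ => i1⟩
        · obtain ⟨n1, hn1⟩ := hw2 v hv hvu
          obtain ⟨n2, hn2⟩ := hw2 u hu Le.refl
          have i1 := fun h => hw1 _ (hv.tail _) (hn1 _ (le_max_right _ _))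
            ((hiff v hv B hB m hm (max m n1) (le_max_left _ _)).mpr h)
          have i2 := fun h => hw1 _ (hu.tail _) (hn2 _ (le_max_right _ _))
            ((hiff u hu Bs hBs ms hms (max ms n2) (le_max_left _ _)).mpr h)
          exact ⟨fun h => absurd h i1, fun h => absurd h i2⟩
      exact SetLike.ext key
    exact ⟨m, fun n hn => hBB ▸ hm n hn⟩
  -- substituting letters in every second word
  have step3 : ∀ a : ZMod 5, a ≠ 0 → a ≠ 4 → ∃ m, ∀ n, m ≤ n →
      ev c (subst a (u (2 * n))) + ev c (subst 2 (u (2 * n + 1))) ∈ Bs := by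
    intro a ha0 ha4
    let s : ℕ → Finset ℕ := fun n => {2 * n, 2 * n + 1}
    let b : ℕ → ℕ → ZMod 5 := fun n k => if k = 2 * n then a else 4
    have hsn : ∀ n, (2 * n : ℕ) ∉ ({2 * n + 1} : Finset ℕ) := by
      intro n h
      rw [Finset.mem_singleton] at h
      omega
    have hv : IsVarSeq (fun n => ∑ k ∈ s n, subst (b n k) (u k)) := by
      intro n
      refine ⟨?_, ?_⟩
      · obtain ⟨i, hi⟩ := (hu (2 * n + 1)).1
        have hne' : u (2 * n + 1) i ≠ 0 := by rw [hi]; decide
        refine ⟨i, ?_⟩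
        simp only
        rw [hu.sum_apply _ _ hne', if_pos (by simp [s])]
        have : b n (2 * n + 1) = 4 := if_neg (by omega)
        rw [this, subst_four]
        exact hi
      · have hsupp : ∀ m i, i ∈ (∑ k ∈ s m, subst (b m k) (u k)).support →
            ∃ k ∈ s m, i ∈ (u k).support := by
          intro m i hi
          rw [Finsupp.mem_support_iff, Finsupp.finsetSum_apply] at hi
          obtain ⟨k, hk, hk'⟩ := Finset.exists_ne_zero_of_sum_ne_zero hi
          exact ⟨k, hk, supp_subst (Finsupp.mem_support_iff.mpr hk')⟩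
        intro i hi j hj
        obtain ⟨k, hk, hk'⟩ := hsupp _ _ hi
        obtain ⟨l, hl, hl'⟩ := hsupp _ _ hj
        have h3 : k < l := by
          simp only [s, Finset.mem_insert, Finset.mem_singleton] at hk hl
          omega
        exact hu.lt h3 i hk' j hl'
    have hle : Le (fun n => ∑ k ∈ s n, subst (b n k) (u k)) u := by
      intro n
      refine ⟨s n, b n, ?_, ⟨2 * n + 1, by simp [s], if_neg (by omega)⟩, rfl⟩
      intro k _
      by_cases hk : k = 2 * n
      · rw [show b n k = a from if_pos hk]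
        exact ha0
      · rw [show b n k = 4 from if_neg hk]
        decide
    obtain ⟨m, hm⟩ := step2 _ hv hle
    refine ⟨m, fun n hn => ?_⟩
    have h3 : ev c (subst 2 (∑ k ∈ s n, subst (b n k) (u k))) ∈ Bs := hm n hn
    rw [subst_sum hu, ev_sum hu] at h3
    rw [show s n = insert (2 * n) {2 * n + 1} from rfl, Finset.sum_insert (hsn n),
      Finset.sum_singleton] at h3
    have e1 : b n (2 * n) = a := if_pos rfl
    have e2 : b n (2 * n + 1) = 4 := if_neg (by omega)
    rw [e1, e2, if_neg ha4, if_pos rfl] at h3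
    exact h3
  -- the member `Bs` meets `A1` and `A2` in infinite-dimensional subspaces
  have step4 : ∀ (a : ZMod 5) (t : ℕ) (Ai : Submodule F (ℕ →₀ F)), t < 2 → a ≠ 0 → a ≠ 4 →
      (∀ i, val c i a = c (2 * i + t)) → (∀ i, c (2 * i + t) ∈ Ai) → Ai ∈ A → Bs = Ai := by
    intro a t Ai ht ha0 ha4 hval hmem hAi
    by_contra hneA
    obtain ⟨m1, hm1⟩ := step3 a ha0 ha4
    obtain ⟨m2, hm2⟩ := step3 1 (by decide) (by decide)
    have hfd := hA.2.1 Bs hBs Ai hAi hneA
    unfold AlmostDisjoint at hfd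
    obtain ⟨N, hN⟩ := (finiteDimensional_iff_bounded _).mp hfd
    set n := max N (max m1 m2) with hn
    have hn1 : m1 ≤ n := (le_max_left _ _).trans (le_max_right _ _)
    have hn2 : m2 ≤ n := (le_max_right _ _).trans (le_max_right _ _)
    have hnN : N ≤ n := le_max_left _ _
    have hd := Bs.sub_mem (hm1 n hn1) (hm2 n hn2)
    rw [add_sub_add_right_eq_sub, ev_diff] at hd
    have hd2 : (∑ i ∈ (u (2 * n)).support, if u (2 * n) i = 4 then val c i a else 0) ∈ Ai := by
      refine sum_mem fun i _ => ?_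
      by_cases h : u (2 * n) i = 4
      · rw [if_pos h, hval]
        exact hmem i
      · rw [if_neg h]
        exact Ai.zero_mem
    obtain ⟨i0, hi0⟩ := (hu (2 * n)).1
    have hi0s : i0 ∈ (u (2 * n)).support := by
      rw [Finsupp.mem_support_iff, hi0]
      decide
    obtain ⟨k, hk⟩ := Finsupp.support_nonempty_iff.mpr (hc (2 * i0 + t)).1
    have hk' := Finsupp.mem_support_iff.mp hk
    have h5 := hc.ge _ k hk
    have h6 := hu.ge _ i0 hi0s
    have h7 := hN _ ⟨hd, hd2⟩ k (by omega)
    rw [Finsupp.finsetSum_apply, Finset.sum_eq_single_of_mem i0 hi0s ?_] at h7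
    · rw [if_pos hi0, hval] at h7
      exact hk' h7
    · intro i _ hi
      by_cases h : u (2 * n) i = 4
      · rw [if_pos h]
        exact val_apply_zero hc t ht hi hk' a
      · rw [if_neg h]
        rfl
  have e1 : Bs = A1 := step4 2 0 A1 (by omega) (by decide) (by decide) (fun i => by
    unfold val
    rw [if_pos rfl]
    rfl) hc1 h1
  have e2 : Bs = A2 := step4 3 1 A2 (by omega) (by decide) (by decide) (fun i => by
    unfold val
    rw [if_neg (by decide), if_pos rfl]) hc2 h2
  exact hne (e1.symm.trans e2)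

end Pool.Agent.MadTwo
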