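import Mathlib
import Pool.Agent.MadTwo.NoMad

/-!
# Definability of the non-Ramsey set
-/

namespace Pool.Agent.MadTwo

open Submodule Pool.Agent.MadBlock

variable {F : Type*} [Field F]

/-- `P` is closed in the product space `(ℕ → Word) × (ℕ → E)`, where `Word` and `E = ℕ →₀ F`
carry the discrete topology (so this is a Polish space homeomorphic to the Baire space). -/
def ClosedRel (P : Set ((ℕ → Word) × (ℕ → (ℕ →₀ F)))) : Prop :=
  @IsClosed ((ℕ → Word) × (ℕ → (ℕ →₀ F)))
    (@instTopologicalSpaceProd _ _ (@Pi.topologicalSpace ℕ (fun _ => Word) (fun _ => ⊥))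
      (@Pi.topologicalSpace ℕ (fun _ => (ℕ →₀ F)) (fun _ => ⊥))) P

/-- for a block sequence, membership in the span depends on finitely many terms -/
theorem mem_span_block {b : ℕ → (ℕ →₀ F)} (hb : IsBlockSeq b) (v : (ℕ →₀ F)) :
    v ∈ span F (Set.range b) ↔
      v ∈ span F (b '' {i | i ≤ v.support.sup id}) := by
  classical
  constructor
  · intro h
    obtain ⟨c, hc, hc'⟩ := hb.eval h
    have h1 : v = ∑ i ∈ c.support, c i • b i := hc
    rw [h1]
    refine sum_mem fun i hi => Submodule.smul_mem _ _ (subset_span ⟨i, ?_, rfl⟩)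
    obtain ⟨k, hk⟩ := Finsupp.support_nonempty_iff.mpr (hb i).1
    have h2 : v k ≠ 0 := by
      rw [hc' i k hk]
      exact mul_ne_zero (Finsupp.mem_support_iff.mp hi) (Finsupp.mem_support_iff.mp hk)
    have h3 : k ≤ (∑ i ∈ c.support, c i • b i).support.sup id := by
      rw [← h1]
      exact Finset.le_sup (f := id) (Finsupp.mem_support_iff.mpr h2)
    have h4 := hb.ge i k hk
    simp only [Set.mem_ofPred_eq]
    omega
  · intro h
    exact span_mono (Set.image_subset_range _ _) h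

/-- the closed relation -/
def PRel (c : ℕ → (ℕ →₀ F)) (x : (ℕ →₀ F)) : Set ((ℕ → Word) × (ℕ → (ℕ →₀ F))) :=
  {q | IsBlockSeq q.2 ∧ x ∈ span F (Set.range q.2) ∧
    ∀ n, ev c (subst 2 (q.1 n)) ∈ span F (Set.range q.2)}

theorem closed_PRel (c : ℕ → (ℕ →₀ F)) (x : (ℕ →₀ F)) : ClosedRel (PRel c x) := by
  classical
  unfold ClosedRel
  letI : TopologicalSpace Word := ⊥
  letI : TopologicalSpace (ℕ →₀ F) := ⊥
  haveI : DiscreteTopology Word := ⟨rfl⟩
  haveI : DiscreteTopology (ℕ →₀ F) := ⟨rfl⟩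
  change IsClosed (PRel c x)
  rw [← isOpen_compl_iff, isOpen_iff_forall_mem_open]
  intro q hq
  -- a basic neighbourhood: agree with `q` up to `N`
  have nbhd : ∀ N : ℕ, IsOpen {r : (ℕ → Word) × (ℕ → (ℕ →₀ F)) |
      ∀ i, i ≤ N → r.1 i = q.1 i ∧ r.2 i = q.2 i} := by
    intro N
    have : {r : (ℕ → Word) × (ℕ → (ℕ →₀ F)) | ∀ i, i ≤ N → r.1 i = q.1 i ∧ r.2 i = q.2 i} =
        ⋂ i ∈ Finset.range (N + 1), {r : (ℕ → Word) × (ℕ → (ℕ →₀ F)) | r.1 i = q.1 i ∧ r.2 i = q.2 i} := by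
      ext r
      simp only [Set.mem_ofPred_eq, Set.mem_iInter, Finset.mem_range]
      constructor
      · intro h i hi
        exact h i (by omega)
      · intro h i hi
        exact h i (by omega)
    rw [this]
    apply isOpen_biInter_finset
    intro i _
    have h1 : IsOpen {r : (ℕ → Word) × (ℕ → (ℕ →₀ F)) | r.1 i = q.1 i} := by
      have hc : Continuous (fun r : (ℕ → Word) × (ℕ → (ℕ →₀ F)) => r.1 i) :=
        (continuous_apply i).comp continuous_fst
      exact (isOpen_discrete ({q.1 i} : Set Word)).preimage hc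
    have h2 : IsOpen {r : (ℕ → Word) × (ℕ → (ℕ →₀ F)) | r.2 i = q.2 i} := by
      have hc : Continuous (fun r : (ℕ → Word) × (ℕ → (ℕ →₀ F)) => r.2 i) :=
        (continuous_apply i).comp continuous_snd
      exact (isOpen_discrete ({q.2 i} : Set (ℕ →₀ F))).preimage hc
    exact h1.inter h2
  by_cases hb : IsBlockSeq q.2
  · -- some vector is not in the span
    have : ∃ v : (ℕ →₀ F), v ∉ span F (Set.range q.2) ∧
        ∃ N : ℕ, ∀ r : (ℕ → Word) × (ℕ → (ℕ →₀ F)), (∀ i, i ≤ N → r.1 i = q.1 i) → r ∈ PRel c x →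
          v ∈ span F (Set.range r.2) := by
      by_contra hcon
      push Not at hcon
      apply hq
      refine ⟨hb, ?_, ?_⟩
      · by_contra h
        obtain ⟨r, _, hr, hr'⟩ := hcon x h 0
        exact hr' hr.2.1
      · intro n
        by_contra h
        obtain ⟨r, hr1, hr, hr'⟩ := hcon _ h n
        apply hr'
        rw [← hr1 n (le_refl n)]
        exact hr.2.2 n
    obtain ⟨v, hv, N, hN⟩ := this
    refine ⟨_, ?_, nbhd (max N (v.support.sup id)), fun i _ => ⟨rfl, rfl⟩⟩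
    intro r hr hrP
    have h1 := hN r (fun i hi => (hr i (hi.trans (le_max_left _ _))).1) hrP
    apply hv
    rw [mem_span_block hrP.1] at h1
    rw [mem_span_block hb]
    have h2 : r.2 '' {i | i ≤ v.support.sup id} = q.2 '' {i | i ≤ v.support.sup id} := by
      apply Set.image_congr
      intro i hi
      exact (hr i (le_trans hi (le_max_right _ _))).2
    rw [← h2]
    exact h1
  · unfold IsBlockSeq at hb
    push Not at hb
    obtain ⟨n, hn⟩ := hb
    refine ⟨_, ?_, nbhd (n + 1), fun i _ => ⟨rfl, rfl⟩⟩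
    intro r hr hrP
    have h1 := hrP.1 n
    rw [(hr n (by omega)).2, (hr (n + 1) (le_refl _)).2] at h1
    exact hn h1.1 h1.2

theorem dSet_eq {A : Set (Submodule F (ℕ →₀ F))} (hA : IsMadFamily A) (c : ℕ → (ℕ →₀ F)) (x : (ℕ →₀ F)) :
    DSet A c x = {w | ∃ b ∈ Codes A, (w, b) ∈ PRel c x} := by
  ext w
  constructor
  · rintro ⟨B, hB, hx, hw⟩
    obtain ⟨b, hb, rfl⟩ := hA.1 B hB
    exact ⟨b, ⟨hb, hB⟩, hb, hx, hw⟩
  · rintro ⟨b, ⟨_, hB⟩, _, hx, hw⟩
    exact ⟨_, hB, hx, hw⟩

end Pool.Agent.MadTwo
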