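import Mathlib
import Pool.Agent.MadTwo.Closed

/-!
# Pointclasses of Ramsey sets
-/

namespace Pool.Agent.MadTwo

open Submodule Pool.Agent.MadBlock

/-- `C` is closed in the sequence space `ℕ → X`, where `X` carries the discrete topology. -/
def ClosedSeq {X : Type} (C : Set (ℕ → X)) : Prop :=
  @IsClosed (ℕ → X) (@Pi.topologicalSpace ℕ (fun _ => X) (fun _ => ⊥)) C

/-- `P` is closed in `(ℕ → Y) × (ℕ → X)`, where `X` and `Y` carry the discrete topology. -/
def ClosedBin {X Y : Type} (P : Set ((ℕ → Y) × (ℕ → X))) : Prop :=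
  @IsClosed ((ℕ → Y) × (ℕ → X))
    (@instTopologicalSpaceProd _ _ (@Pi.topologicalSpace ℕ (fun _ => Y) (fun _ => ⊥))
      (@Pi.topologicalSpace ℕ (fun _ => X) (fun _ => ⊥))) P

/-- A class `L` of subsets of the sequence spaces `ℕ → X` (`X` countable) is a Ramsey class if it
contains the closed sets, is closed under `C ↦ {y | ∃ x ∈ C, (y, x) ∈ P}` for closed relations `P`,
and all its sets of sequences of located variable words over three letters have the Ramsey
property. -/
structure IsRamseyClass (L : ∀ X : Type, Set (Set (ℕ → X))) : Prop where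
  closed : ∀ (X : Type) [Countable X] (C : Set (ℕ → X)), ClosedSeq C → C ∈ L X
  proj : ∀ (X Y : Type) [Countable X] [Countable Y] (C : Set (ℕ → X))
    (P : Set ((ℕ → Y) × (ℕ → X))), C ∈ L X → ClosedBin P → {y | ∃ x ∈ C, (y, x) ∈ P} ∈ L Y
  ramsey : ∀ S ∈ L Word, RamseyProperty S

/-- a nontrivial mad family over a field with two elements is in no Ramsey class -/
theorem no_mad_in_class {L : ∀ X : Type, Set (Set (ℕ → X))} (hL : IsRamseyClass L) {F : Type}
    [Field F] [Countable F] (hF : ∀ a : F, a ≠ 0 → a = 1) {A : Set (Submodule F (ℕ →₀ F))}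
    (hA : IsMadFamily A) (hA2 : A.Nontrivial) : Codes A ∉ L (ℕ →₀ F) := by
  intro hmem
  obtain ⟨A1, h1, A2, h2, hne⟩ := hA2
  obtain ⟨c, x, hcx⟩ := exists_not_ramsey hF hA h1 h2 hne
  apply hcx
  apply hL.ramsey
  rw [dSet_eq hA]
  exact hL.proj (ℕ →₀ F) Word (Codes A) (PRel c x) hmem (closed_PRel c x)

end Pool.Agent.MadTwo
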