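import Mathlib
import Pool.Agent.MadTwo.Build

/-!
# The Hindman property of the positive block sequences
-/

namespace Pool.Agent.MadTwo

open Submodule Pool.Agent.MadBlock Filter

attribute [local instance] Ultrafilter.add Ultrafilter.addSemigroup

/-- the sets used in the recursion are large -/
theorem large {x : ℕ → E2} (hx : IsBlockSeq x) {p : Ultrafilter E2} (hpA : p ∈ Adm x)
    (hp : p + p = p) {Q : ℕ → Set E2} (hQ : ∀ k, Q k ∈ p) {F : ℕ → Finset E2}
    (hF : ∀ k, (F k : Set E2) ⊆ star p (Q k)) (n m : ℕ) :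
    ∀ᶠ a in (p : Filter E2), a ∈ tail (span (ZMod 2) (Set.range x)) m ∧ a ≠ 0 ∧
      ∀ k, k ≤ n → a ∈ star p (Q k) ∧ ∀ w ∈ F k, w + a ∈ star p (Q k) := by
  have h1 : ∀ᶠ a in (p : Filter E2), a ∈ tail (span (ZMod 2) (Set.range x)) m := hpA.1 m
  have h2 : ∀ᶠ a in (p : Filter E2), a ≠ 0 := by
    have h := hpA.2 ⊥ (coInf_bot hx) 0
    rw [← Ultrafilter.compl_mem_iff_notMem] at h
    have h' : ∀ᶠ a in (p : Filter E2), a ∈ {v : E2 | v - 0 ∈ (⊥ : Submodule (ZMod 2) E2)}ᶜ := h
    filter_upwards [h'] with a ha h0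
    apply ha
    rw [h0]
    simp
  have h3 : ∀ᶠ a in (p : Filter E2), ∀ k ∈ Finset.range (n + 1),
      a ∈ star p (Q k) ∧ ∀ w ∈ F k, w + a ∈ star p (Q k) := by
    rw [Filter.eventually_all_finset]
    intro k _
    refine Filter.Eventually.and (star_mem hp (hQ k)) ?_
    rw [Filter.eventually_all_finset]
    intro w hw
    exact star_shift hp (hF k hw)
  filter_upwards [h1, h2, h3] with a ha hb hc
  exact ⟨ha, hb, fun k hk => hc k (Finset.mem_range.mpr (by omega))⟩

theorem sum_mem_of_large {y : ℕ → E2} {P : Set E2} {v : E2}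
    (hP : ∀ s : Finset ℕ, s.Nonempty → ∑ i ∈ s, y i ∈ P)
    (hv : v ∈ span (ZMod 2) (Set.range y)) (hv0 : v ≠ 0) : v ∈ P := by
  obtain ⟨s, rfl⟩ := mem_span_two hv
  apply hP
  rw [Finset.nonempty_iff_ne_empty]
  rintro rfl
  exact hv0 (Finset.sum_empty)

/-- If `P` is large, some positive block sequence has all nonzero elements of its span in `P`. -/
theorem pos_of_mem {A : Set (Submodule (ZMod 2) E2)}
    (had : ∀ V ∈ A, ∀ W ∈ A, V ≠ W → AlmostDisjoint V W) {x : ℕ → E2} (hx : IsBlockSeq x)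
    (hpos : ∀ V ∈ A, CoInf V (span (ZMod 2) (Set.range x))) {p : Ultrafilter E2}
    (hpA : p ∈ Adm x) (hp : p + p = p) {P : Set E2} (hP : P ∈ p) :
    ∃ y, IsBlockSeq y ∧ span (ZMod 2) (Set.range y) ≤ span (ZMod 2) (Set.range x) ∧
      (∀ V ∈ A, CoInf V (span (ZMod 2) (Set.range y))) ∧
      ∀ v ∈ span (ZMod 2) (Set.range y), v ≠ 0 → v ∈ P := by
  classical
  set V := span (ZMod 2) (Set.range x) with hV
  by_contra hcon
  have hc : ∀ y : ℕ → E2, IsBlockSeq y → (∀ n, y n ∈ V) →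
      (∀ s : Finset ℕ, s.Nonempty → ∑ i ∈ s, y i ∈ P) →
      ∃ W ∈ A, ∃ G : Submodule (ZMod 2) E2, FiniteDimensional (ZMod 2) G ∧
        span (ZMod 2) (Set.range y) ≤ W ⊔ G := by
    intro y hy1 hy2 hy3
    by_contra h
    apply hcon
    refine ⟨y, hy1, ?_, ?_, fun v hv hv0 => sum_mem_of_large hy3 hv hv0⟩
    · rw [span_le]
      rintro _ ⟨n, rfl⟩
      exact hy2 n
    · intro W hW G hG hle
      exact h ⟨W, hW, G, hG, hle⟩
  -- the diagonal sequence
  obtain ⟨e, he⟩ := exists_surjective_nat (Finset E2 × ℕ)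
  let Q : ℕ → Set E2 := fun k => {a | a ∈ P ∧ a ∈ tail V (e k).2 ∧
    (((e k).1 : Set E2) ⊆ star p P → a ∈ star p P ∧ ∀ w ∈ (e k).1, w + a ∈ star p P)}
  have hQ : ∀ k, Q k ∈ p := by
    intro k
    have h1 : ∀ᶠ a in (p : Filter E2), a ∈ P := hP
    have h2 : ∀ᶠ a in (p : Filter E2), a ∈ tail V (e k).2 := hpA.1 _
    by_cases h : ((e k).1 : Set E2) ⊆ star p P
    · have h3 := large hx hpA hp (Q := fun _ => P) (fun _ => hP) (F := fun _ => (e k).1)
        (fun _ => h) 0 0
      have h4 : ∀ᶠ a in (p : Filter E2), a ∈ Q k := by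
        filter_upwards [h1, h2, h3] with a ha hb hc
        exact ⟨ha, hb, fun _ => hc.2.2 0 (le_refl 0)⟩
      exact h4
    · have h4 : ∀ᶠ a in (p : Filter E2), a ∈ Q k := by
        filter_upwards [h1, h2] with a ha hb
        exact ⟨ha, hb, fun h' => absurd h' h⟩
      exact h4
  obtain ⟨z, hz1, hz2, _, hz4⟩ := build (V := V) p Q (fun _ _ => Set.univ) (by
    intro n f F hF m
    obtain ⟨a, ha⟩ := (large hx hpA hp hQ hF n m).exists
    exact ⟨a, Set.mem_univ _, ha.1, ha.2.1, ha.2.2⟩)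
  obtain ⟨W, hW, G, hG, hle⟩ := hc z hz1 hz2 (fun s hs =>
    (star_sub (hz4 0 s hs (fun i _ => Nat.zero_le i))).1)
  -- `W` meets all the small sets
  have meets : ∀ (F : Finset E2), (F : Set E2) ⊆ star p P → ∀ m, ∃ a ∈ W, a ∈ tail V m ∧
      a ≠ 0 ∧ a ∈ star p P ∧ ∀ w ∈ F, w + a ∈ star p P := by
    intro F hF m
    obtain ⟨k, hk⟩ := he (F, m)
    let z' : ℕ → E2 := fun i => z (k + i)
    have hz' : IsBlockSeq z' := fun n => hz1 (k + n)
    have hnot : ¬ FiniteDimensional (ZMod 2)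
        (span (ZMod 2) (Set.range z') ⊓ W : Submodule (ZMod 2) E2) := by
      intro hfd
      apply block_not_fd hz'
      refine finiteDimensional_of_le_sup hle hG ?_ hfd
      rw [span_le]
      rintro _ ⟨n, rfl⟩
      exact subset_span ⟨k + n, rfl⟩
    have hne : (span (ZMod 2) (Set.range z') ⊓ W : Submodule (ZMod 2) E2) ≠ ⊥ := by
      intro h
      apply hnot
      rw [h]
      infer_instance
    obtain ⟨a, ⟨ha1, ha2⟩, ha0⟩ := Submodule.exists_mem_ne_zero_of_ne_bot hne
    have h5 : a ∈ star p (Q k) := by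
      refine sum_mem_of_large (y := z') ?_ ha1 ha0
      intro s hs
      have h6 : ∑ i ∈ s, z' i = ∑ i ∈ s.map (addLeftEmbedding k), z i := by
        rw [Finset.sum_map]
        rfl
      rw [h6]
      apply hz4 k
      · exact Finset.Nonempty.map hs
      · intro i hi
        obtain ⟨j, _, rfl⟩ := Finset.mem_map.mp hi
        simp [addLeftEmbedding]
    have h6 := star_sub h5
    have h7 : a ∈ tail V (e k).2 ∧
      (((e k).1 : Set E2) ⊆ star p P → a ∈ star p P ∧ ∀ w ∈ (e k).1, w + a ∈ star p P) := h6.2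
    rw [hk] at h7
    obtain ⟨h8, h9⟩ := h7.2 hF
    exact ⟨a, ha2, h7.1, ha0, h8, h9⟩
  -- the second sequence
  obtain ⟨y, hy1, hy2, hy3, hy4⟩ := build (V := V) p (fun _ => P)
    (fun n f => if Even n then (W : Set E2)
      else {a | a ∉ W ⊔ span (ZMod 2) (Set.range f)}) (by
    intro n f F hF m
    by_cases hn : Even n
    · obtain ⟨a, h1, h2, h3, h4, h5⟩ := meets ((Finset.range (n + 1)).biUnion F) (by
        intro w hw
        rw [Finset.mem_coe, Finset.mem_biUnion] at hw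
        obtain ⟨k, _, hk⟩ := hw
        exact hF k hk) m
      refine ⟨a, ?_, h2, h3, fun k hk => ⟨h4, fun w hw => h5 w ?_⟩⟩
      · rw [if_pos hn]
        exact h1
      · rw [Finset.mem_biUnion]
        exact ⟨k, Finset.mem_range.mpr (by omega), hw⟩
    · have hfd : FiniteDimensional (ZMod 2) (span (ZMod 2) (Set.range f)) :=
        FiniteDimensional.span_of_finite _ (Set.finite_range f)
      have h1 := hpA.2 (W ⊔ span (ZMod 2) (Set.range f)) ((hpos W hW).sup hfd) 0
      rw [← Ultrafilter.compl_mem_iff_notMem] at h1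
      have h2 : ∀ᶠ a in (p : Filter E2),
        a ∈ {v : E2 | v - 0 ∈ W ⊔ span (ZMod 2) (Set.range f)}ᶜ := h1
      obtain ⟨a, ha, hb⟩ := ((large hx hpA hp (Q := fun _ => P) (fun _ => hP) hF n m).and h2).exists
      refine ⟨a, ?_, ha.1, ha.2.1, ha.2.2⟩
      rw [if_neg hn]
      intro h3
      apply hb
      change a - 0 ∈ W ⊔ span (ZMod 2) (Set.range f)
      rw [sub_zero]
      exact h3)
  obtain ⟨W', hW', G', hG', hle'⟩ := hc y hy1 hy2 (fun s hs =>
    star_sub (hy4 0 s hs (fun i _ => Nat.zero_le i)))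
  have heven : ∀ j, y (2 * j) ∈ W := by
    intro j
    have := hy3 (2 * j)
    rw [if_pos (even_two_mul j)] at this
    exact this
  have hodd : ∀ j, y (2 * j + 1) ∉ W ⊔ span (ZMod 2)
      (Set.range (fun i : Fin (2 * j + 1) => y i)) := by
    intro j
    have := hy3 (2 * j + 1)
    rw [if_neg (by simp)] at this
    exact this
  have hWW : W' = W := by
    by_contra hne
    have h1 := had W' hW' W hW hne
    let U := span (ZMod 2) (Set.range fun j => y (2 * j))
    have hU : U ≤ W := by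
      rw [span_le]
      rintro _ ⟨j, rfl⟩
      exact heven j
    have hU2 : U ≤ span (ZMod 2) (Set.range y) := by
      rw [span_le]
      rintro _ ⟨j, rfl⟩
      exact subset_span ⟨2 * j, rfl⟩
    have h2 : FiniteDimensional (ZMod 2) (U ⊓ W' : Submodule (ZMod 2) E2) := by
      have h3 : FiniteDimensional (ZMod 2) (W' ⊓ W : Submodule (ZMod 2) E2) := h1
      refine Submodule.finiteDimensional_of_le (S₂ := W' ⊓ W) ?_
      exact le_inf inf_le_right (inf_le_left.trans hU)
    exact not_finiteDimensional_of hy1 (U := U) (g := fun n => 2 * n) (fun n => by omega)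
      (fun n => subset_span ⟨n, rfl⟩) (finiteDimensional_of_le_sup hle' hG' hU2 h2)
  subst hWW
  let U := span (ZMod 2) (Set.range fun j => y (2 * j + 1))
  have hU2 : U ≤ span (ZMod 2) (Set.range y) := by
    rw [span_le]
    rintro _ ⟨j, rfl⟩
    exact subset_span ⟨2 * j + 1, rfl⟩
  have hbot : (U ⊓ W' : Submodule (ZMod 2) E2) = ⊥ := by
    rw [Submodule.eq_bot_iff]
    rintro v ⟨hv1, hv2⟩
    by_contra hv0
    obtain ⟨s, hs⟩ := mem_span_two hv1
    have hne : s.Nonempty := by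
      rw [Finset.nonempty_iff_ne_empty]
      rintro rfl
      exact hv0 (by rw [hs, Finset.sum_empty])
    have h1 := Finset.sum_erase_add s (fun j => y (2 * j + 1)) (s.max'_mem hne)
    have h2 : y (2 * (s.max' hne) + 1) =
        v - ∑ j ∈ s.erase (s.max' hne), y (2 * j + 1) := by
      rw [hs]
      exact eq_sub_of_add_eq' h1
    apply hodd (s.max' hne)
    rw [h2]
    refine sub_mem (mem_sup_left hv2) (mem_sup_right (sum_mem fun j hj => subset_span ?_))
    have h3 : j < s.max' hne := by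
      have h4 := s.le_max' j (Finset.mem_of_mem_erase hj)
      have h5 := Finset.ne_of_mem_erase hj
      omega
    exact ⟨⟨2 * j + 1, by omega⟩, rfl⟩
  refine not_finiteDimensional_of hy1 (U := U) (g := fun n => 2 * n + 1) (fun n => by omega)
    (fun n => subset_span ⟨n, rfl⟩) (finiteDimensional_of_le_sup hle' hG' hU2 ?_)
  rw [hbot]
  infer_instance

/-- **Hindman property.** -/
theorem hindman_pos {A : Set (Submodule (ZMod 2) E2)}
    (had : ∀ V ∈ A, ∀ W ∈ A, V ≠ W → AlmostDisjoint V W) {x : ℕ → E2} (hx : IsBlockSeq x)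
    (hpos : ∀ V ∈ A, CoInf V (span (ZMod 2) (Set.range x))) (D : Set E2) :
    ∃ y, IsBlockSeq y ∧ span (ZMod 2) (Set.range y) ≤ span (ZMod 2) (Set.range x) ∧
      (∀ V ∈ A, CoInf V (span (ZMod 2) (Set.range y))) ∧
      ((∀ v ∈ span (ZMod 2) (Set.range y), v ≠ 0 → v ∈ D) ∨
        (∀ v ∈ span (ZMod 2) (Set.range y), v ≠ 0 → v ∉ D)) := by
  obtain ⟨p, hpA, hp⟩ := exists_idem hx
  by_cases h : D ∈ p
  · obtain ⟨y, h1, h2, h3, h4⟩ := pos_of_mem had hx hpos hpA hp h
    exact ⟨y, h1, h2, h3, Or.inl h4⟩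
  · rw [← Ultrafilter.compl_mem_iff_notMem] at h
    obtain ⟨y, h1, h2, h3, h4⟩ := pos_of_mem had hx hpos hpA hp h
    exact ⟨y, h1, h2, h3, Or.inr h4⟩

end Pool.Agent.MadTwo
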