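import Mathlib
import Pool.Agent.MadTwo.Pos

/-!
# Fullness
-/

namespace Pool.Agent.MadTwo

open Submodule Pool.Agent.MadBlock

/-- For a family `A` of subspaces of `E = ℕ →₀ F`, the set `H(A)` of all block sequences `x` whose
span meets infinitely many members of `A` in an infinite-dimensional subspace. -/
def HFam {F : Type*} [Field F] (A : Set (Submodule F (ℕ →₀ F))) : Set (ℕ → (ℕ →₀ F)) :=
  {x | IsBlockSeq x ∧ {V | V ∈ A ∧ ¬ AlmostDisjoint V (span F (Set.range x))}.Infinite}

/-- A set `H` of block sequences is full if for every `D ⊆ E` and `x ∈ H`: if below every `y ∈ H`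
with `<y> ⊆ <x>` there is a block sequence `z` with `<z> ⊆ <y>` and `<z> \ {0} ⊆ D`, then some such
`z` with `<z> ⊆ <x>` belongs to `H`. -/
def IsFull {F : Type*} [Field F] (H : Set (ℕ → (ℕ →₀ F))) : Prop :=
  ∀ (D : Set (ℕ →₀ F)), ∀ x ∈ H,
    (∀ y ∈ H, span F (Set.range y) ≤ span F (Set.range x) →
      ∃ z, IsBlockSeq z ∧ span F (Set.range z) ≤ span F (Set.range y) ∧
        ∀ v ∈ span F (Set.range z), v ≠ 0 → v ∈ D) →
    ∃ z ∈ H, span F (Set.range z) ≤ span F (Set.range x) ∧
      ∀ v ∈ span F (Set.range z), v ≠ 0 → v ∈ D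

theorem coInf_of_hFam {A : Set (Submodule (ZMod 2) E2)} (hA : IsMadFamily A) {x : ℕ → E2}
    (hx : x ∈ HFam A) : ∀ V ∈ A, CoInf V (span (ZMod 2) (Set.range x)) := by
  intro V hV G hG hle
  obtain ⟨W, ⟨hW1, hW2⟩, hW3⟩ := hx.2.exists_notMem_finite (Set.finite_singleton V)
  have hne : V ≠ W := fun h => hW3 (by rw [h]; rfl)
  apply hW2
  have h1 := hA.2.1 V hV W hW1 hne
  unfold AlmostDisjoint at *
  refine finiteDimensional_of_le_sup hle hG inf_le_right ?_
  refine Submodule.finiteDimensional_of_le (S₂ := V ⊓ W) ?_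
  exact le_inf inf_le_right (inf_le_left.trans inf_le_left)

theorem not_ad_mono {V U U' : Submodule (ZMod 2) E2} (h : U ≤ U') (hV : ¬ AlmostDisjoint V U) :
    ¬ AlmostDisjoint V U' := by
  intro h1
  apply hV
  unfold AlmostDisjoint at *
  exact Submodule.finiteDimensional_of_le (S₂ := V ⊓ U') (inf_le_inf_left V h)

theorem hFam_of_coInf {A : Set (Submodule (ZMod 2) E2)} (hA : IsMadFamily A) {x : ℕ → E2}
    (hx : IsBlockSeq x) (hpos : ∀ V ∈ A, CoInf V (span (ZMod 2) (Set.range x))) :
    x ∈ HFam A := by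
  classical
  refine ⟨hx, ?_⟩
  intro hfin
  -- remove finitely many members one after the other
  have key : ∀ S : Set (Submodule (ZMod 2) E2), S.Finite → S ⊆ A →
      ∃ y, IsBlockSeq y ∧ span (ZMod 2) (Set.range y) ≤ span (ZMod 2) (Set.range x) ∧
        (∀ V ∈ A, CoInf V (span (ZMod 2) (Set.range y))) ∧
        ∀ W ∈ S, AlmostDisjoint W (span (ZMod 2) (Set.range y)) := by
    intro S hS
    induction S, hS using Set.Finite.induction_on with
    | empty =>
      intro _
      exact ⟨x, hx, le_refl _, hpos, fun W hW => absurd hW (Set.notMem_empty W)⟩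
    | @insert W S _ _ ih =>
      intro hsub
      obtain ⟨y, h1, h2, h3, h4⟩ := ih ((Set.subset_insert W S).trans hsub)
      obtain ⟨z, k1, k2, k3, k4⟩ := hindman_pos hA.2.1 h1 h3 (W : Set E2)
      refine ⟨z, k1, k2.trans h2, k3, ?_⟩
      intro W' hW'
      rcases hW' with hW' | hW'
      · rw [hW']
        rcases k4 with k4 | k4
        · exfalso
          refine k3 W (hsub (Set.mem_insert W S)) ⊥ inferInstance ?_
          rw [sup_bot_eq]
          intro v hv
          by_cases hv0 : v = 0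
          · rw [hv0]; exact W.zero_mem
          · exact k4 v hv hv0
        · have h5 : (W ⊓ span (ZMod 2) (Set.range z) : Submodule (ZMod 2) E2) = ⊥ := by
            rw [Submodule.eq_bot_iff]
            rintro v ⟨hv1, hv2⟩
            by_contra hv0
            exact k4 v hv2 hv0 hv1
          unfold AlmostDisjoint
          rw [h5]
          infer_instance
      · by_contra hcon
        exact not_ad_mono k2 hcon (h4 W' hW')
  obtain ⟨y, h1, h2, _, h4⟩ := key _ hfin (fun V hV => hV.1)
  obtain ⟨W, hW, hW'⟩ := hA.2.2 _ ⟨y, h1, rfl⟩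
  have hcomm : ∀ U U' : Submodule (ZMod 2) E2, AlmostDisjoint U U' → AlmostDisjoint U' U := by
    intro U U' h
    unfold AlmostDisjoint at *
    rwa [inf_comm]
  have h5 : ¬ AlmostDisjoint W (span (ZMod 2) (Set.range y)) := fun h => hW' (hcomm _ _ h)
  exact h5 (h4 W ⟨hW, not_ad_mono h2 h5⟩)

theorem isFull_hFam {A : Set (Submodule (ZMod 2) E2)} (hA : IsMadFamily A) :
    IsFull (HFam A) := by
  intro D x hx hdense
  obtain ⟨y, h1, h2, h3, h4⟩ := hindman_pos hA.2.1 hx.1 (coInf_of_hFam hA hx) D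
  have hy : y ∈ HFam A := hFam_of_coInf hA h1 h3
  rcases h4 with h4 | h4
  · exact ⟨y, hy, h2, h4⟩
  · exfalso
    obtain ⟨z, k1, k2, k3⟩ := hdense y hy h2
    have hz0 := (k1 0).1
    have hz : z 0 ∈ span (ZMod 2) (Set.range z) := subset_span ⟨0, rfl⟩
    exact h4 (z 0) (k2 hz) hz0 (k3 (z 0) hz hz0)

/-- the standard basis -/
noncomputable def stdB (n : ℕ) : E2 := Finsupp.single n 1

theorem stdB_block : IsBlockSeq stdB := by
  intro n
  refine ⟨?_, ?_⟩
  · unfold stdB
    simp
  · intro i hi j hj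
    unfold stdB at hi hj
    rw [Finsupp.support_single _ one_ne_zero] at hi hj
    rw [Finset.mem_singleton] at hi hj
    omega

theorem span_stdB : span (ZMod 2) (Set.range stdB) = ⊤ := by
  rw [eq_top_iff]
  intro v _
  rw [← Finsupp.sum_single v]
  refine sum_mem fun i _ => ?_
  have : Finsupp.single i (v i) = v i • stdB i := by
    unfold stdB
    rw [Finsupp.smul_single, smul_eq_mul, mul_one]
  rw [this]
  exact Submodule.smul_mem _ _ (subset_span ⟨i, rfl⟩)

theorem hFam_nonempty {A : Set (Submodule (ZMod 2) E2)} (hA : IsMadFamily A)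
    (hinf : A.Infinite) : (HFam A).Nonempty := by
  refine ⟨stdB, stdB_block, ?_⟩
  rw [span_stdB]
  refine hinf.mono ?_
  intro V hV
  refine ⟨hV, ?_⟩
  obtain ⟨x, hx, rfl⟩ := hA.1 V hV
  unfold AlmostDisjoint
  rw [inf_top_eq]
  exact block_not_fd hx

end Pool.Agent.MadTwo
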