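import Mathlib
import Pool.Agent.MadTwo.Closed

/-!
# Over the field with two elements, a mad family of block subspaces gives a non-Ramsey set

The statement uses the definitions `IsMadFamily`, `Codes` of `Pool.Agent.MadBlock.Defs`, the
definitions `Word`, `subst`, `IsVarSeq`, `Reduced`, `Le`, `RamseyProperty` of
`Pool.Agent.MadTwo.Words` and `ClosedRel` of `Pool.Agent.MadTwo.Closed`.
-/

namespace Pool.Agent.MadTwo.RamseyNoMad

open Pool.Agent.MadBlock Pool.Agent.MadTwo

/-- If `A` is a mad family of block subspaces over the field with two elements with at least two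
members, then for some closed relation `P` the set of all sequences `w` of words such that
`(w, b) ∈ P` for some code `b` of a member of `A` does not have the Ramsey property for located
variable words over a three letter alphabet. -/
theorem result (A : Set (Submodule (ZMod 2) (ℕ →₀ ZMod 2))) (hA : IsMadFamily A)
    (h2 : A.Nontrivial) :
    ∃ P : Set ((ℕ → Word) × (ℕ → (ℕ →₀ ZMod 2))),
      ClosedRel P ∧ ¬ RamseyProperty {w | ∃ b ∈ Codes A, (w, b) ∈ P} := by
  obtain ⟨A1, h1, A2, h2, hne⟩ := h2
  obtain ⟨c, x, hcx⟩ := exists_not_ramsey (F := ZMod 2) (by decide) hA h1 h2 hne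
  refine ⟨PRel c x, closed_PRel c x, ?_⟩
  rw [← dSet_eq hA]
  exact hcx

end Pool.Agent.MadTwo.RamseyNoMad
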